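import Mathlib

/-!
# The derivatives in the family `y² = (x - a₀) (x - a₁) (x - z)`
-/

set_option autoImplicit false

open Filter Topology

namespace Pool.Agent.NH25.LG

/-- the centre of gravity -/
noncomputable def sg (a0 a1 s : ℂ) : ℂ := (a0 + a1 + s) / 3

/-- the invariants -/
noncomputable def G2 (a0 a1 s : ℂ) : ℂ := -4 * ((a0 - sg a0 a1 s) * (a1 - sg a0 a1 s) + (a0 - sg a0 a1 s) * (s - sg a0 a1 s) +
  (a1 - sg a0 a1 s) * (s - sg a0 a1 s))

/-- the invariants -/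
noncomputable def G3 (a0 a1 s : ℂ) : ℂ := 4 * (a0 - sg a0 a1 s) * (a1 - sg a0 a1 s) * (s - sg a0 a1 s)

/-- the factor -/
noncomputable def be (a0 a1 s : ℂ) : ℂ := 1 / (2 * (a0 - s) * (s - a1))

theorem KD0 {a0 a1 s R : ℂ} {p q : ℂ → ℂ} (h0 : s - a0 ≠ 0) (h1 : s - a1 ≠ 0)
    (hp : HasDerivAt p (be a0 a1 s * ((s - sg a0 a1 s) * p s + q s + R)) s)
    (hq : HasDerivAt q (-be a0 a1 s * ((s - sg a0 a1 s) * q s + G2 a0 a1 s / 12 * p s + (s - sg a0 a1 s) * R)) s) :
    HasDerivAt (fun z => q z + (a0 - sg a0 a1 z) * p z) ((q s + (a1 - sg a0 a1 s) * p s + R) / (2 * (s - a1))) s := by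
  have hs : HasDerivAt (fun z => a0 - sg a0 a1 z) (-(1 / 3)) s := by
    unfold sg
    have h2 := (((hasDerivAt_id s).const_add (a0 + a1)).div_const 3).const_sub a0
    exact h2
  refine (hq.add (hs.mul hp)).congr_deriv ?_
  have h0' : a0 - s ≠ 0 := by
    intro h
    exact h0 (by linear_combination -h)
  unfold be G2 sg
  field_simp
  ring

theorem KD1 {a0 a1 s R : ℂ} {p q : ℂ → ℂ} (h0 : s - a0 ≠ 0) (h1 : s - a1 ≠ 0)
    (hp : HasDerivAt p (be a0 a1 s * ((s - sg a0 a1 s) * p s + q s + R)) s)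
    (hq : HasDerivAt q (-be a0 a1 s * ((s - sg a0 a1 s) * q s + G2 a0 a1 s / 12 * p s + (s - sg a0 a1 s) * R)) s) :
    HasDerivAt (fun z => q z + (a1 - sg a0 a1 z) * p z) ((q s + (a0 - sg a0 a1 s) * p s + R) / (2 * (s - a0))) s := by
  have hs : HasDerivAt (fun z => a1 - sg a0 a1 z) (-(1 / 3)) s := by
    unfold sg
    have h2 := (((hasDerivAt_id s).const_add (a0 + a1)).div_const 3).const_sub a1
    exact h2
  refine (hq.add (hs.mul hp)).congr_deriv ?_
  have h0' : a0 - s ≠ 0 := by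
    intro h
    exact h0 (by linear_combination -h)
  unfold be G2 sg
  field_simp
  ring

/-- the derivative of `y / (c - s)` -/
theorem RD {a0 a1 c s : ℂ} {y : ℂ → ℂ} (hc : c - s ≠ 0) (hc0 : c - a0 ≠ 0) (hc1 : c - a1 ≠ 0) (hy : AnalyticAt ℂ y s)
    (h2 : ∀ᶠ z in 𝓝 s, y z ^ 2 = (c - a0) * (c - a1) * (c - z)) :
    y s ≠ 0 ∧ HasDerivAt (fun z => y z / (c - z)) (y s / (c - s) / (2 * (c - s))) s := by
  have h3 := h2.self_of_nhds
  have hy0 : y s ≠ 0 := by
    intro h0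
    rw [h0] at h3
    have : (c - a0) * (c - a1) * (c - s) ≠ 0 := mul_ne_zero (mul_ne_zero hc0 hc1) hc
    exact this (by rw [← h3]; ring)
  have hyd := hy.differentiableAt.hasDerivAt
  have h4 : HasDerivAt (fun z => (c - a0) * (c - a1) * (c - z)) ((c - a0) * (c - a1) * (-1)) s :=
    ((hasDerivAt_id s).const_sub c).const_mul _
  have h5 : HasDerivAt (fun z => y z ^ 2) ((c - a0) * (c - a1) * (-1)) s := h4.congr_of_eventuallyEq h2
  have h6 := (hyd.pow 2).unique h5
  have h7 : deriv y s = -(y s / (2 * (c - s))) := by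
    have h8 : 2 * y s * deriv y s * (c - s) = -(y s ^ 2) := by
      rw [h3]
      norm_num at h6
      linear_combination (c - s) * h6
    have h9 : y s * (deriv y s * (2 * (c - s)) + y s) = 0 := by linear_combination h8
    have h10 := (mul_eq_zero.1 h9).resolve_left hy0
    rw [← neg_div, eq_div_iff (mul_ne_zero two_ne_zero hc)]
    linear_combination h10
  refine ⟨hy0, ?_⟩
  have h8 : HasDerivAt (fun z : ℂ => c - z) (-1) s := (hasDerivAt_id s).const_sub c
  refine (hyd.div h8 hc).congr_deriv ?_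
  rw [h7]
  field_simp
  ring

end Pool.Agent.NH25.LG
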