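import Pool.Agent.NH25.EL.Fam

/-!
# Periods and elliptic logarithms in the family `y² = (x - a₀) (x - a₁) (x - z)` near `z = 0`: the systems

`J_0' = J_1 / (2 (z - a₁))`, `J_1' = J_0 / (2 (z - a₀))` (periods), and `K_0' = (K_1 + R) / (2 (z - a₁))`,
`K_1' = (K_0 + R) / (2 (z - a₀))`, `R' = R / (2 (c - z))` (elliptic logarithms of the points over `x = c`).
-/

set_option autoImplicit false

open PowerSeries

namespace Pool.Agent.NH25.LG

open Pool.Agent.Y921.DB Pool.Agent.NH25.DL Pool.Agent.Y113 Pool.Agent.NH25.EL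

variable {L : Type} [Field L] [NumberField L] (a : Fin 2 → L) (c : L)

/-- the exponents -/
def mu : Fin 2 → ℚ := fun _ => -(1 / 2)

/-- the Jordan-Pochhammer matrix -/
noncomputable def Z (k j : Fin 2) : L⟦X⟧ := Zk a mu (-(1 / 2)) k j

/-- its inverse -/
noncomputable def W (k j : Fin 2) : L⟦X⟧ := Wk a mu (-(1 / 2)) k j

lemma hm : ∀ m : ℕ, (m : ℚ) ≠ -(1 / 2) := fun m h0 => by
  have h1 : (0 : ℚ) ≤ m := Nat.cast_nonneg m
  linarith

lemma Z_zero (k j : Fin 2) : constantCoeff (Z a k j) = if k = j then 1 else 0 := Zk_zero _ _ _ _ _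

lemma GFn_Z (k j : Fin 2) : GFn (Z a k j) := GFn_Zk _ _ _ hm _ _

lemma GFn_W (k j : Fin 2) : GFn (W a k j) := GFn_Wk _ _ _ hm _ _

lemma W_Z (ha : ∀ j, a j ≠ 0) (i j : Fin 2) : W a i 0 * Z a 0 j + W a i 1 * Z a 1 j = if i = j then 1 else 0 := by
  have h := Wk_inv a mu (-(1 / 2)) ha hm i j
  rw [Fin.sum_univ_two] at h
  exact h

lemma Z_W (ha : ∀ j, a j ≠ 0) (i j : Fin 2) : Z a i 0 * W a 0 j + Z a i 1 * W a 1 j = if i = j then 1 else 0 := by
  have h1 : Matrix.of (W a) * Matrix.of (Z a) = 1 := by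
    refine Matrix.ext fun i j => ?_
    rw [Matrix.mul_apply, Fin.sum_univ_two, Matrix.one_apply]
    exact W_Z a ha i j
  have h2 := mul_eq_one_comm.1 h1
  have h3 := congrFun (congrFun h2 i) j
  rw [Matrix.mul_apply, Fin.sum_univ_two, Matrix.one_apply] at h3
  exact h3

lemma XC_ne (x : L) : (X - C x : L⟦X⟧) ≠ 0 := by
  intro h
  have := congrArg (coeff 1) h
  simp [coeff_X, coeff_C] at this

lemma Z_der0 (ha : ∀ j, a j ≠ 0) (k : Fin 2) :
    2 * ((X - C (a 0)) * d⁄dX L (Z a k 0)) = -(2 * Z a k 0 + Z a k 1) := by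
  have h := Zk_sys a mu (-(1 / 2)) ha hm k 0
  have h1 : fp a = (Polynomial.X - Polynomial.C (a 0)) * (Polynomial.X - Polynomial.C (a 1)) := by
    unfold fp
    rw [Fin.prod_univ_two]
  have h2 : fe a 0 = Polynomial.X - Polynomial.C (a 1) := by
    unfold fe
    rw [show (Finset.univ.erase (0 : Fin 2)) = {1} from by decide, Finset.prod_singleton]
  rw [Fin.sum_univ_two, h1, Ak, Ak, h2, Polynomial.coe_mul, Polynomial.coe_mul, Polynomial.coe_mul, coe_XC, coe_XC,
    Polynomial.coe_C, Polynomial.coe_C] at h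
  have h3 : (C ((mu 0 : L) + if (0 : Fin 2) = 0 then (((-(1 / 2) : ℚ)) : L) else 0) : L⟦X⟧) = C (-1 : L) := by
    rw [if_pos rfl, mu]
    congr 1
    push_cast
    ring
  have h4 : (C ((mu 1 : L) + if (1 : Fin 2) = 0 then (((-(1 / 2) : ℚ)) : L) else 0) : L⟦X⟧) * 2 = C (-1 : L) := by
    have h5 : (2 : L⟦X⟧) = C (2 : L) := by rw [map_ofNat]
    rw [if_neg (by decide), mu, h5, ← map_mul]
    congr 1
    push_cast
    ring
  rw [h3] at h
  have h6 : (C (-1 : L) : L⟦X⟧) = -1 := by rw [map_neg, map_one]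
  rw [h6] at h h4
  have h7 : (X - C (a 1) : L⟦X⟧) * (2 * ((X - C (a 0)) * d⁄dX L (Z a k 0)) + (2 * Z a k 0 + Z a k 1)) = 0 := by
    have h8 : (X - C (a 0)) * (X - C (a 1)) * d⁄dX L (Z a k 0) = Z a k 0 * (-1 * (X - C (a 1))) +
        Z a k 1 * ((C ((mu 1 : L) + if (1 : Fin 2) = 0 then (((-(1 / 2) : ℚ)) : L) else 0) : L⟦X⟧) * (X - C (a 1))) := h
    linear_combination 2 * h8 + (Z a k 1 * (X - C (a 1))) * h4
  have h9 := (mul_eq_zero.1 h7).resolve_left (XC_ne _)
  linear_combination h9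

lemma Z_der1 (ha : ∀ j, a j ≠ 0) (k : Fin 2) :
    2 * ((X - C (a 1)) * d⁄dX L (Z a k 1)) = -(Z a k 0 + 2 * Z a k 1) := by
  have h := Zk_sys a mu (-(1 / 2)) ha hm k 1
  have h1 : fp a = (Polynomial.X - Polynomial.C (a 0)) * (Polynomial.X - Polynomial.C (a 1)) := by
    unfold fp
    rw [Fin.prod_univ_two]
  have h2 : fe a 1 = Polynomial.X - Polynomial.C (a 0) := by
    unfold fe
    rw [show (Finset.univ.erase (1 : Fin 2)) = {0} from by decide, Finset.prod_singleton]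
  rw [Fin.sum_univ_two, h1, Ak, Ak, h2, Polynomial.coe_mul, Polynomial.coe_mul, Polynomial.coe_mul, coe_XC, coe_XC,
    Polynomial.coe_C, Polynomial.coe_C] at h
  have h3 : (C ((mu 1 : L) + if (1 : Fin 2) = 1 then (((-(1 / 2) : ℚ)) : L) else 0) : L⟦X⟧) = C (-1 : L) := by
    rw [if_pos rfl, mu]
    congr 1
    push_cast
    ring
  have h4 : (C ((mu 0 : L) + if (0 : Fin 2) = 1 then (((-(1 / 2) : ℚ)) : L) else 0) : L⟦X⟧) * 2 = C (-1 : L) := by
    have h5 : (2 : L⟦X⟧) = C (2 : L) := by rw [map_ofNat]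
    rw [if_neg (by decide), mu, h5, ← map_mul]
    congr 1
    push_cast
    ring
  rw [h3] at h
  have h6 : (C (-1 : L) : L⟦X⟧) = -1 := by rw [map_neg, map_one]
  rw [h6] at h h4
  have h7 : (X - C (a 0) : L⟦X⟧) * (2 * ((X - C (a 1)) * d⁄dX L (Z a k 1)) + (Z a k 0 + 2 * Z a k 1)) = 0 := by
    have h8 : (X - C (a 0)) * (X - C (a 1)) * d⁄dX L (Z a k 1) = Z a k 0 *
        ((C ((mu 0 : L) + if (0 : Fin 2) = 1 then (((-(1 / 2) : ℚ)) : L) else 0) : L⟦X⟧) * (X - C (a 0))) +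
        Z a k 1 * (-1 * (X - C (a 0))) := h
    linear_combination 2 * h8 + (Z a k 0 * (X - C (a 0))) * h4
  have h9 := (mul_eq_zero.1 h7).resolve_left (XC_ne _)
  linear_combination h9

/-- the signs -/
def sgn (j : Fin 2) : L := if j = 0 then 1 else -1

lemma sgn_sq (j : Fin 2) : (sgn j : L) * sgn j = 1 := by
  unfold sgn
  split_ifs <;> ring

/-- the fundamental matrix of the periods -/
noncomputable def J (k j : Fin 2) : L⟦X⟧ := C (sgn k * sgn j * (-(a k)⁻¹)) * (X - C (a j)) * Z a k j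

/-- its inverse -/
noncomputable def V (i k : Fin 2) : L⟦X⟧ := C (sgn i * sgn k * (a k * (a i)⁻¹)) * ge (a i) * W a i k

lemma GFn_XC (x : L) : GFn (X - C x : L⟦X⟧) := GFn.X.sub (GFn.const x)

lemma GFn_J (k j : Fin 2) : GFn (J a k j) := ((GFn.const _).mul (GFn_XC _)).mul (GFn_Z _ _ _)

lemma GFn_V (k j : Fin 2) : GFn (V a k j) := ((GFn.const _).mul (GFn_ge _)).mul (GFn_W _ _ _)

lemma XC_ge {x : L} (hx : x ≠ 0) : (X - C x : L⟦X⟧) * ge x = C (-x) := by
  have h3 := ge_mul x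
  have h4 : C x * C x⁻¹ = (1 : L⟦X⟧) := by rw [← map_mul, mul_inv_cancel₀ hx, map_one]
  rw [map_neg]
  linear_combination (-C x) * h3 - (X * ge x) * h4

lemma J_zero (ha : ∀ j, a j ≠ 0) (k j : Fin 2) : coeff 0 (J a k j) = if k = j then 1 else 0 := by
  rw [coeff_zero_eq_constantCoeff_apply, J, map_mul, map_mul, map_sub, Z_zero]
  split_ifs with h
  · subst h
    simp
    rw [sgn_sq]
    have := ha k
    field_simp
  · rw [mul_zero]

lemma J_V (ha : ∀ j, a j ≠ 0) (i j : Fin 2) : J a i 0 * V a 0 j + J a i 1 * V a 1 j = if i = j then 1 else 0 := by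
  have h1 : ∀ k : Fin 2, J a i k * V a k j = C (sgn i * sgn j * ((a i)⁻¹ * a j)) * (Z a i k * W a k j) := by
    intro k
    unfold J V
    have h2 := XC_ge (ha k)
    have h3 : (C (sgn i * sgn k * (-(a i)⁻¹)) * C (sgn k * sgn j * (a j * (a k)⁻¹)) * C (-a k) : L⟦X⟧) =
        C (sgn i * sgn j * ((a i)⁻¹ * a j)) := by
      rw [← map_mul, ← map_mul]
      congr 1
      have h4 := sgn_sq (L := L) k
      have h5 : a k * (a k)⁻¹ = 1 := mul_inv_cancel₀ (ha k)
      linear_combination (sgn i * sgn j * (a i)⁻¹ * a j * (sgn k * sgn k)) * h5 + (sgn i * sgn j * (a i)⁻¹ * a j) * h4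
    calc _ = (C (sgn i * sgn k * (-(a i)⁻¹)) * C (sgn k * sgn j * (a j * (a k)⁻¹)) * ((X - C (a k)) * ge (a k))) *
          (Z a i k * W a k j) := by ring
      _ = _ := by rw [h2, h3]
  rw [h1, h1, ← mul_add, Z_W a ha]
  split_ifs with h
  · subst h
    rw [sgn_sq, inv_mul_cancel₀ (ha i)]
    simp
  · rw [mul_zero]

lemma V_J (ha : ∀ j, a j ≠ 0) (i j : Fin 2) : V a i 0 * J a 0 j + V a i 1 * J a 1 j = if i = j then 1 else 0 := by
  have h1 : Matrix.of (J a) * Matrix.of (V a) = 1 := by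
    refine Matrix.ext fun i j => ?_
    rw [Matrix.mul_apply, Fin.sum_univ_two, Matrix.one_apply]
    exact J_V a ha i j
  have h2 := mul_eq_one_comm.1 h1
  have h3 := congrFun (congrFun h2 i) j
  rw [Matrix.mul_apply, Fin.sum_univ_two, Matrix.one_apply] at h3
  exact h3

lemma der_CX (b x : L) (g : L⟦X⟧) : d⁄dX L (C b * (X - C x) * g) = C b * (g + (X - C x) * d⁄dX L g) := by
  have h1 : d⁄dX L (C b : L⟦X⟧) = 0 := PowerSeries.derivative_C
  have h2 : d⁄dX L (X - C x : L⟦X⟧) = 1 := by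
    rw [map_sub, PowerSeries.derivative_C, sub_zero]
    exact PowerSeries.derivative_X
  rw [Derivation.leibniz, Derivation.leibniz, smul_eq_mul, smul_eq_mul, smul_eq_mul, smul_eq_mul, h1, h2]
  ring

/-- the system -/
lemma J_der0 (ha : ∀ j, a j ≠ 0) (k : Fin 2) : 2 * ((X - C (a 1)) * d⁄dX L (J a k 0)) = J a k 1 := by
  have h := Z_der0 a ha k
  have h1 : (C (sgn k * sgn 1 * (-(a k)⁻¹)) : L⟦X⟧) = -C (sgn k * sgn 0 * (-(a k)⁻¹)) := by
    rw [← map_neg]
    congr 1
    unfold sgn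
    simp
  unfold J
  rw [der_CX, h1]
  linear_combination (C (sgn k * sgn 0 * (-(a k)⁻¹)) * (X - C (a 1))) * h

lemma J_der1 (ha : ∀ j, a j ≠ 0) (k : Fin 2) : 2 * ((X - C (a 0)) * d⁄dX L (J a k 1)) = J a k 0 := by
  have h := Z_der1 a ha k
  have h1 : (C (sgn k * sgn 0 * (-(a k)⁻¹)) : L⟦X⟧) = -C (sgn k * sgn 1 * (-(a k)⁻¹)) := by
    rw [← map_neg]
    congr 1
    unfold sgn
    simp
  unfold J
  rw [der_CX, h1]
  linear_combination (C (sgn k * sgn 1 * (-(a k)⁻¹)) * (X - C (a 0))) * h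

/-- the algebraic function -/
noncomputable def rr : L⟦X⟧ := Bn c (-(1 / 2))

/-- its inverse -/
noncomputable def ri : L⟦X⟧ := Bn c (1 / 2)

lemma rr_ri : rr c * ri c = 1 := by
  unfold rr ri
  rw [Bn_mul]
  norm_num
  exact Bn_zero c

lemma rr_der (hc : c ≠ 0) : 2 * ((X - C c) * d⁄dX L (rr c)) = -rr c := by
  have h := Bn_ode hc (-(1 / 2))
  have h1 : (2 : L⟦X⟧) * C (((-(1 / 2) : ℚ)) : L) = -1 := by
    have h5 : (2 : L⟦X⟧) = C (2 : L) := by rw [map_ofNat]
    rw [h5, ← map_mul, ← map_one C, ← map_neg]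
    congr 1
    push_cast
    ring
  unfold rr
  linear_combination 2 * h + (Bn c (-(1 / 2))) * h1

/-- `1 / (2 (z - x))` -/
noncomputable def hf (x : L) : L⟦X⟧ := C (-(2 * x)⁻¹) * ge x

lemma hf_mul {x : L} (hx : x ≠ 0) : 2 * ((X - C x) * hf x) = 1 := by
  have h1 := XC_ge hx
  unfold hf
  have h2 : (2 : L⟦X⟧) * C (-(2 * x)⁻¹) * C (-x) = 1 := by
    have h5 : (2 : L⟦X⟧) = C (2 : L) := by rw [map_ofNat]
    rw [h5, ← map_mul, ← map_mul, ← map_one C]
    congr 1
    field_simp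
  linear_combination (2 * C (-(2 * x)⁻¹)) * h1 + h2

/-- the coefficients of the particular solution -/
noncomputable def vv (k : Fin 2) : L⟦X⟧ := Pr (rr c * (hf (a 1) * V a 0 k + hf (a 0) * V a 1 k))

/-- the particular solution -/
noncomputable def ww (j : Fin 2) : L⟦X⟧ := vv a c 0 * J a 0 j + vv a c 1 * J a 1 j

lemma GFn_vv (k : Fin 2) : GFn (vv a c k) :=
  GFn_Pr ((GFn_Bn _ _).mul ((((GFn.const _).mul (GFn_ge _)).mul (GFn_V _ _ _)).add
    (((GFn.const _).mul (GFn_ge _)).mul (GFn_V _ _ _))))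

lemma GFn_ww (j : Fin 2) : GFn (ww a c j) := ((GFn_vv _ _ _).mul (GFn_J _ _ _)).add ((GFn_vv _ _ _).mul (GFn_J _ _ _))

lemma vv_zero (k : Fin 2) : coeff 0 (vv a c k) = 0 := coeff_Pr_zero _

lemma ww_zero (j : Fin 2) : coeff 0 (ww a c j) = 0 := by
  unfold ww
  have h1 := vv_zero a c 0
  have h2 := vv_zero a c 1
  rw [coeff_zero_eq_constantCoeff_apply] at h1 h2 ⊢
  rw [map_add, map_mul, map_mul, h1, h2]
  ring

lemma ww_der (ha : ∀ j, a j ≠ 0) (j : Fin 2) : d⁄dX L (ww a c j) = rr c * (if j = 0 then hf (a 1) else hf (a 0)) +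
    (vv a c 0 * d⁄dX L (J a 0 j) + vv a c 1 * d⁄dX L (J a 1 j)) := by
  unfold ww
  rw [map_add, Derivation.leibniz, Derivation.leibniz]
  simp only [smul_eq_mul]
  rw [show d⁄dX L (vv a c 0) = rr c * (hf (a 1) * V a 0 0 + hf (a 0) * V a 1 0) from der_Pr _,
    show d⁄dX L (vv a c 1) = rr c * (hf (a 1) * V a 0 1 + hf (a 0) * V a 1 1) from der_Pr _]
  have h0 := V_J a ha 0 j
  have h1 := V_J a ha 1 j
  fin_cases j
  · simp only [Fin.zero_eta, Fin.isValue, if_true] at h0 h1 ⊢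
    rw [if_neg (by decide)] at h1
    linear_combination (rr c * hf (a 1)) * h0 + (rr c * hf (a 0)) * h1
  · simp only [Fin.mk_one, Fin.isValue] at h0 h1 ⊢
    rw [if_neg (by decide)] at h0
    rw [if_pos trivial] at h1
    rw [if_neg (by decide)]
    linear_combination (rr c * hf (a 1)) * h0 + (rr c * hf (a 0)) * h1

lemma ww_der0 (ha : ∀ j, a j ≠ 0) : 2 * ((X - C (a 1)) * d⁄dX L (ww a c 0)) = ww a c 1 + rr c := by
  rw [ww_der a c ha, if_pos rfl]
  have h1 := hf_mul (ha 1)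
  have h2 := J_der0 a ha 0
  have h3 := J_der0 a ha 1
  unfold ww
  linear_combination (rr c) * h1 + (vv a c 0) * h2 + (vv a c 1) * h3

lemma ww_der1 (ha : ∀ j, a j ≠ 0) : 2 * ((X - C (a 0)) * d⁄dX L (ww a c 1)) = ww a c 0 + rr c := by
  rw [ww_der a c ha, if_neg (by decide)]
  have h1 := hf_mul (ha 0)
  have h2 := J_der1 a ha 0
  have h3 := J_der1 a ha 1
  unfold ww
  linear_combination (rr c) * h1 + (vv a c 0) * h2 + (vv a c 1) * h3

/-- the block of the periods -/
noncomputable def HZ : Matrix (Fin 2) (Fin 2) L⟦X⟧ := Matrix.of (J a)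

/-- the block of an elliptic logarithm -/
noncomputable def HP : Matrix (Fin 3) (Fin 3) L⟦X⟧ :=
  !![J a 0 0, J a 0 1, 0; J a 1 0, J a 1 1, 0; ww a c 0, ww a c 1, rr c]

lemma two_C : (2 : L⟦X⟧) * C (1 / 2 : L) = 1 := by
  have h5 : (2 : L⟦X⟧) = C (2 : L) := by rw [map_ofNat]
  rw [h5, ← map_mul, ← map_one C]
  congr 1
  norm_num

theorem lfamZ (ha : ∀ j, a j ≠ 0) : LFam (0 : Matrix (Fin 2) (Fin 2) ℤ) (HZ a) where
  nil := by simp
  one := fun i j => J_zero a ha i j
  ode := by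
    refine ⟨(Polynomial.X - Polynomial.C (a 0)) * (Polynomial.X - Polynomial.C (a 1)),
      ![![0, Polynomial.X * (Polynomial.C (1 / 2) * (Polynomial.X - Polynomial.C (a 1)))],
        ![Polynomial.X * (Polynomial.C (1 / 2) * (Polynomial.X - Polynomial.C (a 0))), 0]], ?_, fun i j => ?_⟩
    · simp [ha 0, ha 1]
    · have h2 := J_der0 a ha i
      have h3 := J_der1 a ha i
      have h4 := two_C (L := L)
      have e0 : PowerSeries.derivative L (HZ a i 0) = d⁄dX L (J a i 0) := rfl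
      have e1 : PowerSeries.derivative L (HZ a i 1) = d⁄dX L (J a i 1) := rfl
      have e2 : HZ a i 0 = J a i 0 := rfl
      have e3 : HZ a i 1 = J a i 1 := rfl
      have hz : ∑ l, C (((0 : Matrix (Fin 2) (Fin 2) ℤ) i l : ℤ) : L) * HZ a l j = 0 := by simp
      rw [hz, add_zero, Fin.sum_univ_two]
      fin_cases j
      · simp only [Fin.zero_eta, Fin.isValue, Matrix.cons_val_zero, Matrix.cons_val_one, Matrix.cons_val_fin_one,
          Polynomial.coe_zero, mul_zero, zero_add]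
        rw [e0, e3, Polynomial.coe_mul, Polynomial.coe_mul, Polynomial.coe_mul, coe_XC, coe_XC, Polynomial.coe_X,
          Polynomial.coe_C]
        linear_combination (C (1 / 2) * X * (X - C (a 0))) * h2 -
          ((X - C (a 0)) * (X - C (a 1)) * (X * d⁄dX L (J a i 0))) * h4
      · simp only [Fin.mk_one, Fin.isValue, Matrix.cons_val_zero, Matrix.cons_val_one, Matrix.cons_val_fin_one,
          Polynomial.coe_zero, mul_zero, add_zero]
        rw [e1, e2, Polynomial.coe_mul, Polynomial.coe_mul, Polynomial.coe_mul, coe_XC, coe_XC, Polynomial.coe_X,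
          Polynomial.coe_C]
        linear_combination (C (1 / 2) * X * (X - C (a 1))) * h3 -
          ((X - C (a 0)) * (X - C (a 1)) * (X * d⁄dX L (J a i 1))) * h4
  gfun := fun i j => GFn_J a i j
  inv := by
    refine ⟨Matrix.of (V a), ?_, fun i j => GFn_V a i j⟩
    refine Matrix.ext fun i j => ?_
    rw [Matrix.mul_apply, Fin.sum_univ_two, Matrix.one_apply]
    exact J_V a ha i j

/-- the inverse block -/
noncomputable def WP : Matrix (Fin 3) (Fin 3) L⟦X⟧ :=
  !![V a 0 0, V a 0 1, 0; V a 1 0, V a 1 1, 0; -(ri c * vv a c 0), -(ri c * vv a c 1), ri c]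

/-- the entries of the system -/
noncomputable def pp (x y : L) : Polynomial L :=
  Polynomial.X * (Polynomial.C (1 / 2) * ((Polynomial.X - Polynomial.C x) * (Polynomial.X - Polynomial.C y)))

lemma pp_coe (x y : L) : ((pp x y : Polynomial L) : L⟦X⟧) = X * (C (1 / 2) * ((X - C x) * (X - C y))) := by
  rw [pp, Polynomial.coe_mul, Polynomial.coe_mul, Polynomial.coe_mul, coe_XC, coe_XC, Polynomial.coe_X, Polynomial.coe_C]

theorem lfamP (ha : ∀ j, a j ≠ 0) (hc : c ≠ 0) : LFam (0 : Matrix (Fin 3) (Fin 3) ℤ) (HP a c) where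
  nil := by simp
  one := fun i j => by
    have h1 : coeff 0 (rr c) = 1 := by
      unfold rr
      rw [coeff_zero_eq_constantCoeff_apply, Bn_coeff_zero]
    have j1 := J_zero a ha 0 0
    have j2 := J_zero a ha 0 1
    have j3 := J_zero a ha 1 0
    have j4 := J_zero a ha 1 1
    have w1 := ww_zero a c 0
    have w2 := ww_zero a c 1
    fin_cases i <;> fin_cases j <;> simp [HP, h1, j1, j2, j3, j4, w1, w2, -coeff_zero_eq_constantCoeff]
  ode := by
    refine ⟨(Polynomial.X - Polynomial.C (a 0)) * (Polynomial.X - Polynomial.C (a 1)) * (Polynomial.X - Polynomial.C c),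
      ![![0, pp (a 1) c, 0], ![pp (a 0) c, 0, 0], ![pp (a 0) c, pp (a 1) c, -pp (a 0) (a 1)]], ?_, fun i j => ?_⟩
    · simp [ha 0, ha 1, hc]
    · have hz : ∑ l, C (((0 : Matrix (Fin 3) (Fin 3) ℤ) i l : ℤ) : L) * HP a c l j = 0 := by simp
      have h4 := two_C (L := L)
      rw [hz, add_zero, Fin.sum_univ_three]
      have cT : (((Polynomial.X - Polynomial.C (a 0)) * (Polynomial.X - Polynomial.C (a 1)) *
          (Polynomial.X - Polynomial.C c) : Polynomial L) : L⟦X⟧) = (X - C (a 0)) * (X - C (a 1)) * (X - C c) := by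
        rw [Polynomial.coe_mul, Polynomial.coe_mul, coe_XC, coe_XC, coe_XC]
      rw [cT]
      have k0 : ∀ k : Fin 2, (X - C (a 0)) * (X - C (a 1)) * (X - C c) * (X * d⁄dX L (J a k 0)) =
          J a k 1 * (X * (C (1 / 2) * ((X - C (a 0)) * (X - C c)))) := by
        intro k
        linear_combination (C (1 / 2) * X * (X - C (a 0)) * (X - C c)) * (J_der0 a ha k) -
          ((X - C (a 0)) * (X - C (a 1)) * (X - C c) * (X * d⁄dX L (J a k 0))) * h4
      have k1 : ∀ k : Fin 2, (X - C (a 0)) * (X - C (a 1)) * (X - C c) * (X * d⁄dX L (J a k 1)) =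
          J a k 0 * (X * (C (1 / 2) * ((X - C (a 1)) * (X - C c)))) := by
        intro k
        linear_combination (C (1 / 2) * X * (X - C (a 1)) * (X - C c)) * (J_der1 a ha k) -
          ((X - C (a 0)) * (X - C (a 1)) * (X - C c) * (X * d⁄dX L (J a k 1))) * h4
      have z0 : ((0 : Polynomial L) : L⟦X⟧) = 0 := Polynomial.coe_zero
      fin_cases i <;> fin_cases j
      · show (X - C (a 0)) * (X - C (a 1)) * (X - C c) * (X * d⁄dX L (J a 0 0)) = J a 0 0 * ((0 : Polynomial L) : L⟦X⟧) +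
          J a 0 1 * ((pp (a 0) c : Polynomial L) : L⟦X⟧) + 0 * ((pp (a 0) c : Polynomial L) : L⟦X⟧)
        rw [pp_coe, z0, k0]
        ring
      · show (X - C (a 0)) * (X - C (a 1)) * (X - C c) * (X * d⁄dX L (J a 0 1)) = J a 0 0 * ((pp (a 1) c : Polynomial L) : L⟦X⟧) +
          J a 0 1 * ((0 : Polynomial L) : L⟦X⟧) + 0 * ((pp (a 1) c : Polynomial L) : L⟦X⟧)
        rw [pp_coe, z0, k1]
        ring
      · show (X - C (a 0)) * (X - C (a 1)) * (X - C c) * (X * d⁄dX L (0 : L⟦X⟧)) = J a 0 0 * ((0 : Polynomial L) : L⟦X⟧) +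
          J a 0 1 * ((0 : Polynomial L) : L⟦X⟧) + 0 * ((-pp (a 0) (a 1) : Polynomial L) : L⟦X⟧)
        rw [z0, map_zero]
        ring
      · show (X - C (a 0)) * (X - C (a 1)) * (X - C c) * (X * d⁄dX L (J a 1 0)) = J a 1 0 * ((0 : Polynomial L) : L⟦X⟧) +
          J a 1 1 * ((pp (a 0) c : Polynomial L) : L⟦X⟧) + 0 * ((pp (a 0) c : Polynomial L) : L⟦X⟧)
        rw [pp_coe, z0, k0]
        ring
      · show (X - C (a 0)) * (X - C (a 1)) * (X - C c) * (X * d⁄dX L (J a 1 1)) = J a 1 0 * ((pp (a 1) c : Polynomial L) : L⟦X⟧) +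
          J a 1 1 * ((0 : Polynomial L) : L⟦X⟧) + 0 * ((pp (a 1) c : Polynomial L) : L⟦X⟧)
        rw [pp_coe, z0, k1]
        ring
      · show (X - C (a 0)) * (X - C (a 1)) * (X - C c) * (X * d⁄dX L (0 : L⟦X⟧)) = J a 1 0 * ((0 : Polynomial L) : L⟦X⟧) +
          J a 1 1 * ((0 : Polynomial L) : L⟦X⟧) + 0 * ((-pp (a 0) (a 1) : Polynomial L) : L⟦X⟧)
        rw [z0, map_zero]
        ring
      · show (X - C (a 0)) * (X - C (a 1)) * (X - C c) * (X * d⁄dX L (ww a c 0)) = ww a c 0 * ((0 : Polynomial L) : L⟦X⟧) +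
          ww a c 1 * ((pp (a 0) c : Polynomial L) : L⟦X⟧) + rr c * ((pp (a 0) c : Polynomial L) : L⟦X⟧)
        rw [pp_coe, z0]
        linear_combination (C (1 / 2) * X * (X - C (a 0)) * (X - C c)) * (ww_der0 a c ha) -
          ((X - C (a 0)) * (X - C (a 1)) * (X - C c) * (X * d⁄dX L (ww a c 0))) * h4
      · show (X - C (a 0)) * (X - C (a 1)) * (X - C c) * (X * d⁄dX L (ww a c 1)) = ww a c 0 * ((pp (a 1) c : Polynomial L) : L⟦X⟧) +
          ww a c 1 * ((0 : Polynomial L) : L⟦X⟧) + rr c * ((pp (a 1) c : Polynomial L) : L⟦X⟧)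
        rw [pp_coe, z0]
        linear_combination (C (1 / 2) * X * (X - C (a 1)) * (X - C c)) * (ww_der1 a c ha) -
          ((X - C (a 0)) * (X - C (a 1)) * (X - C c) * (X * d⁄dX L (ww a c 1))) * h4
      · show (X - C (a 0)) * (X - C (a 1)) * (X - C c) * (X * d⁄dX L (rr c)) = ww a c 0 * ((0 : Polynomial L) : L⟦X⟧) +
          ww a c 1 * ((0 : Polynomial L) : L⟦X⟧) + rr c * ((-pp (a 0) (a 1) : Polynomial L) : L⟦X⟧)
        rw [Polynomial.coe_neg, pp_coe, z0]
        linear_combination (C (1 / 2) * X * (X - C (a 0)) * (X - C (a 1))) * (rr_der c hc) -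
          ((X - C (a 0)) * (X - C (a 1)) * (X - C c) * (X * d⁄dX L (rr c))) * h4
  gfun := fun i j => by
    fin_cases i <;> fin_cases j
    · exact GFn_J a _ _
    · exact GFn_J a _ _
    · exact GFn.zero
    · exact GFn_J a _ _
    · exact GFn_J a _ _
    · exact GFn.zero
    · exact GFn_ww a c _
    · exact GFn_ww a c _
    · exact GFn_Bn _ _
  inv := by
    refine ⟨WP a c, ?_, fun i j => ?_⟩
    · have q00 := J_V a ha 0 0
      have q01 := J_V a ha 0 1
      have q10 := J_V a ha 1 0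
      have q11 := J_V a ha 1 1
      have hr := rr_ri c
      rw [if_pos rfl] at q00 q11
      rw [if_neg (by decide)] at q01 q10
      refine Matrix.ext fun i j => ?_
      rw [Matrix.mul_apply, Fin.sum_univ_three]
      fin_cases i <;> fin_cases j
      · show J a 0 0 * V a 0 0 + J a 0 1 * V a 1 0 + 0 * (-(ri c * vv a c 0)) = 1
        linear_combination q00
      · show J a 0 0 * V a 0 1 + J a 0 1 * V a 1 1 + 0 * (-(ri c * vv a c 1)) = 0
        linear_combination q01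
      · show J a 0 0 * 0 + J a 0 1 * 0 + 0 * ri c = 0
        ring
      · show J a 1 0 * V a 0 0 + J a 1 1 * V a 1 0 + 0 * (-(ri c * vv a c 0)) = 0
        linear_combination q10
      · show J a 1 0 * V a 0 1 + J a 1 1 * V a 1 1 + 0 * (-(ri c * vv a c 1)) = 1
        linear_combination q11
      · show J a 1 0 * 0 + J a 1 1 * 0 + 0 * ri c = 0
        ring
      · show ww a c 0 * V a 0 0 + ww a c 1 * V a 1 0 + rr c * (-(ri c * vv a c 0)) = 0
        unfold ww
        linear_combination (vv a c 0) * q00 + (vv a c 1) * q10 - (vv a c 0) * hr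
      · show ww a c 0 * V a 0 1 + ww a c 1 * V a 1 1 + rr c * (-(ri c * vv a c 1)) = 0
        unfold ww
        linear_combination (vv a c 0) * q01 + (vv a c 1) * q11 - (vv a c 1) * hr
      · show ww a c 0 * 0 + ww a c 1 * 0 + rr c * ri c = 1
        linear_combination hr
    · fin_cases i <;> fin_cases j
      · exact GFn_V a _ _
      · exact GFn_V a _ _
      · exact GFn.zero
      · exact GFn_V a _ _
      · exact GFn_V a _ _
      · exact GFn.zero
      · exact ((GFn_Bn _ _).mul (GFn_vv a c _)).neg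
      · exact ((GFn_Bn _ _).mul (GFn_vv a c _)).neg
      · exact GFn_Bn _ _

end Pool.Agent.NH25.LG
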