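import Pool.Agent.NH25.LG.Main
import Pool.Agent.NH19.LF.Main
import Pool.Agent.Y577.LU.L1

/-!
# The relations, with the families of lattices by helper19
-/

set_option autoImplicit false

open Module Filter Topology
open scoped PeriodPair

namespace Pool.Agent.NH25.LG

open Pool.Agent.Y921.DB Pool.Agent.NH25.DL Pool.Agent.NH25.FR Pool.Agent.NH25.UF

variable {k n m : ℕ} {κ₁ : Type} [Fintype κ₁]

theorem famEx : FamEx := by
  intro a0 a1 h0 h1 h01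
  obtain ⟨Λ, k1, k2, hL, hp⟩ := Pool.Agent.NH19.LF.fam a0 a1 h0 h1 h01
  refine ⟨Λ, ![k1, k2], ?_, fun c hc hc0 hc1 => ?_⟩
  · filter_upwards [hL] with s hs
    obtain ⟨e1, e2, e3, e4, e5, e6, e7, e8⟩ := hs
    exact ⟨e1, e2, e3, e4, e5, e6, e7, e8⟩
  · obtain ⟨p, q, y, h⟩ := hp c hc hc0 hc1
    refine ⟨p, q, y, ?_⟩
    filter_upwards [h] with s hs
    obtain ⟨e1, e2, e3, e4, e5, e6, e7⟩ := hs
    refine ⟨e1, e2, e3, e4, e5, e6, e7.congr_deriv ?_⟩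
    rw [show Pool.Agent.NH19.LF.e3 a0 a1 s = s - sg a0 a1 s from rfl, mul_div_assoc]
    rfl

theorem latEq : LatEq := fun A B h2 h3 => Pool.Agent.Y577.LU.lat_unique A B h2 h3

/-- **The relations.** -/
theorem relG (F : Dat k n m) (hk : 1 ≤ k) (w : κ₁ → ℂ) :
    ∃ (L : Type) (_ : Field L) (_ : NumberField L) (_ : Algebra L ℂ)
    (N : Fin k → ℕ) (H : ∀ l, Matrix (Fin (N l)) (Fin (N l)) (PowerSeries L)) (κ₂ : Type) (_ : Fintype κ₂)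
    (P : (Fin k → ℂ) → (Fin k → ℂ) → κ₂ → ℂ) (ρ : ℝ), 0 < ρ ∧ (∀ l, LFam (0 : Matrix (Fin (N l)) (Fin (N l)) ℤ) (H l)) ∧
      Nonempty (RepL P ρ H) ∧ ∀ r, 0 < r → r ≤ ρ → ∀ (D δ : ℕ) (s : Fin k → ℂ), (∀ l, s l ≠ 0) → Pnt D P r δ s →
        NoRel F w D δ s ∧ (∀ l j, s l ≠ F.a l j) ∧ (∀ l i, s l ≠ F.c l i) ∧ ∀ l j, F.d l j + s l ≠ 0 :=
  relG' famEx latEq F hk w

end Pool.Agent.NH25.LG
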