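import Pool.Agent.Y776.Fam.Main
import Pool.Agent.NH25.LG.Der

/-!
# Independence of the periods and the elliptic logarithms in the family `y² = (x - a₀) (x - a₁) (x - z)`
-/

set_option autoImplicit false

open Filter Topology
open scoped PeriodPair

namespace Pool.Agent.NH25.LG

open Pool.Agent.Y776.Fam Pool.Agent.Y124

section van

variable {n : ℕ} {U : Set ℂ}

/-- functions with `R_i' = λ R_i / (c_i - z)` -/
theorem van (hU : IsOpen U) {c : Fin n → ℂ} (hc : Function.Injective c) (hcU : ∀ i, ∀ z ∈ U, c i - z ≠ 0) {lam : ℝ}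
    (hlam : 0 ≤ lam) {R : Fin n → ℂ → ℂ} (hR : ∀ i, ∀ z ∈ U, HasDerivAt (R i) ((lam : ℂ) * R i z / (c i - z)) z)
    (v : Fin n → ℂ) (h0 : ∀ z ∈ U, ∑ i, v i * R i z / (c i - z) = 0) {x : ℂ} (hx : x ∈ U) (i : Fin n) : v i * R i x = 0 := by
  have key : ∀ j : ℕ, ∀ z ∈ U, ∑ i, v i * R i z / (c i - z) ^ (j + 1) = 0 := by
    intro j
    induction j with
    | zero => simpa using h0
    | succ j ih =>
      intro z hz
      have h1 : HasDerivAt (fun z => ∑ i, v i * R i z / (c i - z) ^ (j + 1))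
          (∑ i, ((lam : ℂ) + (j + 1)) * (v i * R i z / (c i - z) ^ (j + 2))) z := by
        refine HasDerivAt.fun_sum fun i _ => ?_
        have hne := hcU i z hz
        have h2 : HasDerivAt (fun z : ℂ => (c i - z) ^ (j + 1)) (((j + 1 : ℕ) : ℂ) * (c i - z) ^ j * (-1)) z := by
          have h3 : HasDerivAt (fun z : ℂ => c i - z) (-1) z := by
            simpa using (hasDerivAt_id z).const_sub (c i)
          exact h3.pow (j + 1)
        have h4 := ((hR i z hz).const_mul (v i)).div h2 (pow_ne_zero _ hne)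
        refine h4.congr_deriv ?_
        push_cast
        field_simp
        ring
      have h2 : (fun z => ∑ i, v i * R i z / (c i - z) ^ (j + 1)) =ᶠ[𝓝 z] fun _ => 0 := by
        filter_upwards [hU.mem_nhds hz] with w hw
        exact ih w hw
      have h3 := h1.unique ((hasDerivAt_const z (0 : ℂ)).congr_of_eventuallyEq h2)
      rw [← Finset.mul_sum] at h3
      refine (mul_eq_zero.1 h3).resolve_left ?_
      have : (0 : ℝ) < lam + (j + 1) := by positivity
      exact_mod_cast this.ne'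
  have hinj : Function.Injective fun i => (c i - x)⁻¹ := fun i j h => hc (by
    have h1 := inv_injective h
    exact sub_left_injective h1)
  have h1 := Matrix.eq_zero_of_forall_pow_sum_mul_pow_eq_zero (v := fun i => v i * R i x / (c i - x)) hinj fun j => by
    rw [← key j x hx]
    refine Finset.sum_congr rfl fun i _ => ?_
    rw [pow_succ, div_mul_eq_div_div_swap]
    simp only [div_eq_mul_inv, inv_pow, mul_inv]
  have h2 := congrFun h1 i
  simp only [Pi.zero_apply] at h2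
  exact (div_eq_zero_iff.1 h2).resolve_right (hcU i x hx)

end van

/-- polynomial functions are algebraic -/
theorem algOn_poly {U : Set ℂ} {f : ℂ → ℂ} (p : Polynomial ℂ) (h : ∀ z ∈ U, f z = p.eval z) : AlgOn U f := by
  refine ⟨MvPolynomial.X 1 - Polynomial.aeval (MvPolynomial.X 0) p, fun h0 => ?_, fun z hz => ?_⟩
  · have h1 := congrArg (MvPolynomial.eval ![(0 : ℂ), p.eval 0 + 1]) h0
    rw [map_sub, MvPolynomial.eval_X, map_zero] at h1
    have h2 : MvPolynomial.eval ![(0 : ℂ), p.eval 0 + 1] (Polynomial.aeval (MvPolynomial.X 0) p) = p.eval 0 := by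
      have h3 := Polynomial.hom_eval₂ p (algebraMap ℂ (MvPolynomial (Fin 2) ℂ)) (MvPolynomial.eval ![(0 : ℂ), p.eval 0 + 1])
        (MvPolynomial.X 0)
      rw [Polynomial.aeval_def, h3]
      have h4 : (MvPolynomial.eval ![(0 : ℂ), p.eval 0 + 1]).comp (algebraMap ℂ (MvPolynomial (Fin 2) ℂ)) = RingHom.id ℂ := by
        refine RingHom.ext fun a => ?_
        simp [MvPolynomial.algebraMap_eq]
      rw [h4, MvPolynomial.eval_X]
      rfl
    rw [h2] at h1
    simp at h1
  · rw [map_sub, MvPolynomial.eval_X]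
    have h2 : MvPolynomial.eval ![z, f z] (Polynomial.aeval (MvPolynomial.X 0) p) = p.eval z := by
      have h3 := Polynomial.hom_eval₂ p (algebraMap ℂ (MvPolynomial (Fin 2) ℂ)) (MvPolynomial.eval ![z, f z])
        (MvPolynomial.X 0)
      rw [Polynomial.aeval_def, h3]
      have h4 : (MvPolynomial.eval ![z, f z]).comp (algebraMap ℂ (MvPolynomial (Fin 2) ℂ)) = RingHom.id ℂ := by
        refine RingHom.ext fun a => ?_
        simp [MvPolynomial.algebraMap_eq]
      rw [h4, MvPolynomial.eval_X]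
      rfl
    rw [h2]
    simp [h z hz]

/-- the family of lattices at a point -/
structure Lt (a0 a1 : ℂ) (Λ : ℂ → PeriodPair) (h : Fin 2 → ℂ → ℂ) (s : ℂ) : Prop where
  g2 : (Λ s).g₂ = G2 a0 a1 s
  g3 : (Λ s).g₃ = G3 a0 a1 s
  an1 : AnalyticAt ℂ (fun z => (Λ z).ω₁) s
  an2 : AnalyticAt ℂ (fun z => (Λ z).ω₂) s
  d1 : HasDerivAt (fun z => (Λ z).ω₁) (be a0 a1 s * ((s - sg a0 a1 s) * (Λ s).ω₁ + h 0 s)) s
  d2 : HasDerivAt (fun z => (Λ z).ω₂) (be a0 a1 s * ((s - sg a0 a1 s) * (Λ s).ω₂ + h 1 s)) s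
  e1 : HasDerivAt (h 0) (-be a0 a1 s * ((s - sg a0 a1 s) * h 0 s + G2 a0 a1 s / 12 * (Λ s).ω₁)) s
  e2 : HasDerivAt (h 1) (-be a0 a1 s * ((s - sg a0 a1 s) * h 1 s + G2 a0 a1 s / 12 * (Λ s).ω₂)) s

/-- the elliptic logarithm at a point -/
structure Lg (a0 a1 c : ℂ) (Λ : ℂ → PeriodPair) (p q y : ℂ → ℂ) (s : ℂ) : Prop where
  an : AnalyticAt ℂ p s
  nm : p s ∉ (Λ s).lattice
  wp : ℘[Λ s] (p s) = c - sg a0 a1 s
  y2 : y s ^ 2 = (c - a0) * (c - a1) * (c - s)
  ya : AnalyticAt ℂ y s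
  dp : HasDerivAt p (be a0 a1 s * ((s - sg a0 a1 s) * p s + q s + y s / (c - s))) s
  dq : HasDerivAt q (-be a0 a1 s * ((s - sg a0 a1 s) * q s + G2 a0 a1 s / 12 * p s + (s - sg a0 a1 s) * (y s / (c - s)))) s

variable {n m : ℕ} {U : Set ℂ} {a0 a1 : ℂ} {Λ : ℂ → PeriodPair} {h : Fin 2 → ℂ → ℂ} {c : Fin n → ℂ} {p q y : Fin n → ℂ → ℂ}

/-- a linear combination of solutions which vanishes -/
theorem comb_zero (hU : IsOpen U) (h01 : a0 ≠ a1) (hU0 : ∀ z ∈ U, z - a0 ≠ 0) (hU1 : ∀ z ∈ U, z - a1 ≠ 0)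
    {P Q R : ℂ → ℂ} (hP : ∀ z ∈ U, HasDerivAt P (be a0 a1 z * ((z - sg a0 a1 z) * P z + Q z + R z)) z)
    (hQ : ∀ z ∈ U, HasDerivAt Q (-be a0 a1 z * ((z - sg a0 a1 z) * Q z + G2 a0 a1 z / 12 * P z + (z - sg a0 a1 z) * R z)) z)
    (h0 : ∀ z ∈ U, P z = 0) {R' : ℂ → ℂ} (hR : ∀ z ∈ U, HasDerivAt R (R' z) z) : ∀ z ∈ U, R' z = 0 := by
  -- the derivative of `P` is zero
  have e1 : ∀ z ∈ U, Q z + R z = 0 := by
    intro z hz
    have h1 : P =ᶠ[𝓝 z] fun _ => 0 := by
      filter_upwards [hU.mem_nhds hz] with w hw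
      exact h0 w hw
    have h2 := (hP z hz).unique ((hasDerivAt_const z (0 : ℂ)).congr_of_eventuallyEq h1)
    rw [h0 z hz, mul_zero, zero_add] at h2
    refine (mul_eq_zero.1 h2).resolve_left ?_
    unfold be
    have h3 : a0 - z ≠ 0 := fun h => hU0 z hz (by linear_combination -h)
    exact one_div_ne_zero (mul_ne_zero (mul_ne_zero two_ne_zero h3) (hU1 z hz))
  intro z hz
  have h1 : (fun z => Q z + R z) =ᶠ[𝓝 z] fun _ => 0 := by
    filter_upwards [hU.mem_nhds hz] with w hw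
    exact e1 w hw
  have h2 := ((hQ z hz).add (hR z hz)).unique ((hasDerivAt_const z (0 : ℂ)).congr_of_eventuallyEq h1)
  rw [h0 z hz] at h2
  have h3 := e1 z hz
  linear_combination h2 + (be a0 a1 z * (z - sg a0 a1 z)) * h3

/-- the points are independent modulo torsion -/
theorem indP (hU : IsOpen U) (hUc : IsPreconnected U) (hne : U.Nonempty) (h01 : a0 ≠ a1) (hU0 : ∀ z ∈ U, z - a0 ≠ 0)
    (hU1 : ∀ z ∈ U, z - a1 ≠ 0) (hL : ∀ z ∈ U, Lt a0 a1 Λ h z) (hc : Function.Injective c) (hcU : ∀ i, ∀ z ∈ U, c i - z ≠ 0)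
    (hc0 : ∀ i, c i - a0 ≠ 0) (hc1 : ∀ i, c i - a1 ≠ 0) (hp : ∀ i, ∀ z ∈ U, Lg a0 a1 (c i) Λ (p i) (q i) (y i) z) :
    IndP U Λ p := by
  classical
  intro ν hν
  -- the functions
  set F : ℤ × ℤ → ℂ → ℂ := fun m z => ∑ i, (ν i : ℂ) * p i z - (m.1 * (Λ z).ω₁ + m.2 * (Λ z).ω₂) with hF
  have hFa : ∀ m, AnalyticOnNhd ℂ (F m) U := by
    intro m z hz
    refine AnalyticAt.sub (Finset.analyticAt_fun_sum _ fun i _ => analyticAt_const.mul (hp i z hz).an) ?_
    exact (analyticAt_const.mul (hL z hz).an1).add (analyticAt_const.mul (hL z hz).an2)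
  obtain ⟨m, hm⟩ : ∃ m, ∀ z ∈ U, F m z = 0 := by
    by_contra hcon
    push Not at hcon
    have h1 : ∀ m, {z | z ∈ U ∧ F m z = 0}.Countable := fun m => countable_zeros hUc (hFa m) (hcon m)
    obtain ⟨z, hz, hz2⟩ := exists_notMem hU hne (Set.countable_iUnion h1)
    apply hz2
    have h2 := hν z hz
    rw [PeriodPair.mem_lattice] at h2
    obtain ⟨a, b, hab⟩ := h2
    refine Set.mem_iUnion.2 ⟨(a, b), hz, ?_⟩
    simp only [hF]
    rw [← hab, sub_self]
  set R : ℂ → ℂ := fun z => ∑ i, (ν i : ℂ) * (y i z / (c i - z)) with hR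
  have hRD : ∀ i, ∀ z ∈ U, y i z ≠ 0 ∧ HasDerivAt (fun z => y i z / (c i - z)) (y i z / (c i - z) / (2 * (c i - z))) z := by
    intro i z hz
    refine RD (a0 := a0) (a1 := a1) (hcU i z hz) (hc0 i) (hc1 i) (hp i z hz).ya ?_
    filter_upwards [hU.mem_nhds hz] with w hw
    exact (hp i w hw).y2
  have key := comb_zero (P := F m) (Q := fun z => ∑ i, (ν i : ℂ) * q i z - (m.1 * h 0 z + m.2 * h 1 z)) (R := R) hU h01 hU0 hU1
    (fun z hz => by
      refine ((HasDerivAt.fun_sum fun i _ => ((hp i z hz).dp.const_mul ((ν i : ℂ)))).sub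
        (((hL z hz).d1.const_mul (m.1 : ℂ)).add ((hL z hz).d2.const_mul (m.2 : ℂ)))).congr_deriv ?_
      simp only [hF, hR]
      have h1 : ∑ i, (ν i : ℂ) * (be a0 a1 z * ((z - sg a0 a1 z) * p i z + q i z + y i z / (c i - z))) =
          be a0 a1 z * ((z - sg a0 a1 z) * ∑ i, (ν i : ℂ) * p i z + ∑ i, (ν i : ℂ) * q i z +
            ∑ i, (ν i : ℂ) * (y i z / (c i - z))) := by
        rw [Finset.mul_sum, ← Finset.sum_add_distrib, ← Finset.sum_add_distrib, Finset.mul_sum]
        exact Finset.sum_congr rfl fun i _ => by ring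
      rw [h1]
      ring)
    (fun z hz => by
      refine ((HasDerivAt.fun_sum fun i _ => ((hp i z hz).dq.const_mul ((ν i : ℂ)))).sub
        (((hL z hz).e1.const_mul (m.1 : ℂ)).add ((hL z hz).e2.const_mul (m.2 : ℂ)))).congr_deriv ?_
      simp only [hF, hR]
      have h1 : ∑ i, (ν i : ℂ) * (-be a0 a1 z * ((z - sg a0 a1 z) * q i z + G2 a0 a1 z / 12 * p i z +
          (z - sg a0 a1 z) * (y i z / (c i - z)))) =
          -be a0 a1 z * ((z - sg a0 a1 z) * ∑ i, (ν i : ℂ) * q i z + G2 a0 a1 z / 12 * ∑ i, (ν i : ℂ) * p i z +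
            (z - sg a0 a1 z) * ∑ i, (ν i : ℂ) * (y i z / (c i - z))) := by
        rw [Finset.mul_sum, Finset.mul_sum, Finset.mul_sum, ← Finset.sum_add_distrib, ← Finset.sum_add_distrib, Finset.mul_sum]
        exact Finset.sum_congr rfl fun i _ => by ring
      rw [h1]
      ring) hm (R' := fun z => ∑ i, (ν i : ℂ) * (y i z / (c i - z) / (2 * (c i - z))))
    (fun z hz => HasDerivAt.fun_sum fun i _ => ((hRD i z hz).2.const_mul ((ν i : ℂ))))
  obtain ⟨x, hx⟩ := hne
  funext i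
  have h2 := van (lam := 1 / 2) hU hc hcU (by norm_num) (R := fun i z => y i z / (c i - z)) (fun i z hz => by
      refine (hRD i z hz).2.congr_deriv ?_
      push_cast
      have := hcU i z hz
      field_simp) (fun i => (ν i : ℂ)) (fun z hz => by
      have h3 := key z hz
      have h4 : ∑ i, (ν i : ℂ) * (y i z / (c i - z)) / (c i - z) = 2 * ∑ i, (ν i : ℂ) * (y i z / (c i - z) / (2 * (c i - z))) := by
        rw [Finset.mul_sum]
        refine Finset.sum_congr rfl fun i _ => ?_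
        have := hcU i z hz
        field_simp
      rw [h4, h3, mul_zero]) hx i
  have h3 : y i x / (c i - x) ≠ 0 := div_ne_zero (hRD i x hx).1 (hcU i x hx)
  have h4 := (mul_eq_zero.1 h2).resolve_right h3
  exact_mod_cast h4

/-- the logarithms are independent modulo constants -/
theorem indL (hU : IsOpen U) (hne : U.Nonempty) {d : Fin m → ℂ} (hd : Function.Injective d) (hdU : ∀ j, ∀ z ∈ U, d j + z ≠ 0)
    {l : Fin m → ℂ → ℂ} (hl : ∀ j, ∀ z ∈ U, HasDerivAt (l j) (1 / (d j + z)) z) : IndC U l := by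
  intro ν C hν
  obtain ⟨x, hx⟩ := hne
  have h0 : ∀ z ∈ U, ∑ j, (ν j : ℂ) * (1 / (d j + z)) = 0 := by
    intro z hz
    have h1 : HasDerivAt (fun z => ∑ j, (ν j : ℂ) * l j z) (∑ j, (ν j : ℂ) * (1 / (d j + z))) z :=
      HasDerivAt.fun_sum fun j _ => (hl j z hz).const_mul _
    have h2 : (fun z => ∑ j, (ν j : ℂ) * l j z) =ᶠ[𝓝 z] fun _ => C := by
      filter_upwards [hU.mem_nhds hz] with w hw
      exact hν w hw
    exact h1.unique ((hasDerivAt_const z C).congr_of_eventuallyEq h2)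
  funext j
  have h1 := van (c := fun j => -d j) (lam := 0) hU (fun i j h => hd (neg_injective h)) (fun i z hz => by
      have := hdU i z hz
      intro h
      exact this (by linear_combination -h)) le_rfl (R := fun _ _ => 1) (fun i z hz => by
      have := hasDerivAt_const z (1 : ℂ)
      simpa using this) (fun j => (ν j : ℂ)) (fun z hz => by
      have h2 := h0 z hz
      have h3 : ∑ i, (ν i : ℂ) * 1 / (-d i - z) = -∑ j, (ν j : ℂ) * (1 / (d j + z)) := by
        rw [← Finset.sum_neg_distrib]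
        refine Finset.sum_congr rfl fun i _ => ?_
        have h4 := hdU i z hz
        have h5 : -d i - z ≠ 0 := fun h => h4 (by linear_combination -h)
        field_simp
        ring
      rw [h3, h2, neg_zero]) hx j
  rw [mul_one] at h1
  exact_mod_cast h1

/-- the invariant is not constant -/
theorem ni (hU : IsOpen U) (hne : U.Nonempty) (h01 : a0 ≠ a1) (hL : ∀ z ∈ U, Lt a0 a1 Λ h z) : NI U Λ := by
  intro a b hab
  set f : ℂ → ℂ := fun z => a * G2 a0 a1 z ^ 3 - b * G3 a0 a1 z ^ 2 with hf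
  have hfa : AnalyticOnNhd ℂ f Set.univ := by
    have hd : Differentiable ℂ f := by
      simp only [hf]
      unfold G2 G3 sg
      fun_prop
    exact fun z _ => hd.analyticAt z
  obtain ⟨x, hx⟩ := hne
  have h1 : f =ᶠ[𝓝 x] 0 := by
    filter_upwards [hU.mem_nhds hx] with z hz
    simp only [hf, Pi.zero_apply]
    have := hab z hz
    rw [(hL z hz).g2, (hL z hz).g3] at this
    rw [this, sub_self]
  have h2 := hfa.eqOn_zero_of_preconnected_of_eventuallyEq_zero isPreconnected_univ (Set.mem_univ x) h1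
  have e1 := h2 (Set.mem_univ a0)
  have e2 := h2 (Set.mem_univ (2 * a0 - a1))
  have h01' : a0 - a1 ≠ 0 := sub_ne_zero.2 h01
  simp only [hf, Pi.zero_apply] at e1 e2
  have q1 : G3 a0 a1 (2 * a0 - a1) = 0 := by
    unfold G3 sg
    ring
  have q2 : G2 a0 a1 (2 * a0 - a1) = 4 * (a0 - a1) ^ 2 := by
    unfold G2 sg
    ring
  have ha : a = 0 := by
    rw [q1, q2] at e2
    have h3 : a * (4 * (a0 - a1) ^ 2) ^ 3 = 0 := by linear_combination e2
    exact (mul_eq_zero.1 h3).resolve_right (pow_ne_zero _ (mul_ne_zero (by norm_num) (pow_ne_zero _ h01')))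
  have q3 : G3 a0 a1 a0 = 8 / 27 * (-(a0 - a1) ^ 3) := by
    unfold G3 sg
    ring
  refine ⟨ha, ?_⟩
  rw [ha, q3] at e1
  have h3 : b * (8 / 27 * (-(a0 - a1) ^ 3)) ^ 2 = 0 := by linear_combination -e1
  exact (mul_eq_zero.1 h3).resolve_right (pow_ne_zero _ (mul_ne_zero (by norm_num) (neg_ne_zero.2 (pow_ne_zero _ h01'))))

/-- **Independence.** -/
theorem ind (hU : IsOpen U) (hUc : IsPreconnected U) (hne : U.Nonempty) (h01 : a0 ≠ a1) (hU0 : ∀ z ∈ U, z - a0 ≠ 0)
    (hU1 : ∀ z ∈ U, z - a1 ≠ 0) (hL : ∀ z ∈ U, Lt a0 a1 Λ h z) (hc : Function.Injective c) (hcU : ∀ i, ∀ z ∈ U, c i - z ≠ 0)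
    (hc0 : ∀ i, c i - a0 ≠ 0) (hc1 : ∀ i, c i - a1 ≠ 0) (hp : ∀ i, ∀ z ∈ U, Lg a0 a1 (c i) Λ (p i) (q i) (y i) z)
    {d : Fin m → ℂ} (hd : Function.Injective d) (hdU : ∀ j, ∀ z ∈ U, d j + z ≠ 0)
    {l : Fin m → ℂ → ℂ} (hla : ∀ j, ∀ z ∈ U, AnalyticAt ℂ (l j) z) (hl : ∀ j, ∀ z ∈ U, HasDerivAt (l j) (1 / (d j + z)) z)
    (γ : Fin m → ℂ) (hle : ∀ j, ∀ z ∈ U, Complex.exp (l j z) = γ j * (d j + z))
    (P : MvPolynomial (Option (Fin 2 ⊕ (Fin n ⊕ Fin m))) ℂ)
    (hP : ∀ z ∈ U, MvPolynomial.eval (fun o : Option _ => o.elim z (Sum.elim ![(Λ z).ω₁, (Λ z).ω₂]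
      (Sum.elim (fun i => p i z) fun j => l j z))) P = 0) : P = 0 := by
  have hFm : Fm U Λ p l (fun (k : Fin 0) _ => k.elim0) (fun k : Fin 0 => k.elim0) :=
    { isOpen := hU
      conn := hUc
      an₁ := fun z hz => (hL z hz).an1
      an₂ := fun z hz => (hL z hz).an2
      ni := ni hU hne h01 hL
      ag2 := algOn_poly (Polynomial.C (-4) * ((Polynomial.C a0 - Polynomial.C (1 / 3) * (Polynomial.C (a0 + a1) + Polynomial.X)) *
          (Polynomial.C a1 - Polynomial.C (1 / 3) * (Polynomial.C (a0 + a1) + Polynomial.X)) +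
          (Polynomial.C a0 - Polynomial.C (1 / 3) * (Polynomial.C (a0 + a1) + Polynomial.X)) *
          (Polynomial.X - Polynomial.C (1 / 3) * (Polynomial.C (a0 + a1) + Polynomial.X)) +
          (Polynomial.C a1 - Polynomial.C (1 / 3) * (Polynomial.C (a0 + a1) + Polynomial.X)) *
          (Polynomial.X - Polynomial.C (1 / 3) * (Polynomial.C (a0 + a1) + Polynomial.X)))) fun z hz => by
        rw [(hL z hz).g2]
        unfold G2 sg
        simp
        ring
      ag3 := algOn_poly (Polynomial.C 4 * (Polynomial.C a0 - Polynomial.C (1 / 3) * (Polynomial.C (a0 + a1) + Polynomial.X)) *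
          (Polynomial.C a1 - Polynomial.C (1 / 3) * (Polynomial.C (a0 + a1) + Polynomial.X)) *
          (Polynomial.X - Polynomial.C (1 / 3) * (Polynomial.C (a0 + a1) + Polynomial.X))) fun z hz => by
        rw [(hL z hz).g3]
        unfold G3 sg
        simp
        ring
      ua := fun i z hz => (hp i z hz).an
      un := fun i z hz => (hp i z hz).nm
      uw := fun i => algOn_poly (Polynomial.C (c i) - Polynomial.C (1 / 3) * (Polynomial.C (a0 + a1) + Polynomial.X)) fun z hz => by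
        rw [(hp i z hz).wp]
        unfold sg
        simp
        ring
      ui := indP hU hUc hne h01 hU0 hU1 hL hc hcU hc0 hc1 hp
      la := fun j z hz => hla j z hz
      le := fun j => algOn_poly (Polynomial.C (γ j) * (Polynomial.C (d j) + Polynomial.X)) fun z hz => by
        rw [hle j z hz]
        simp
      li := indL hU hne hd hdU hl
      Sa := fun k => k.elim0
      Se := fun k => k.elim0
      Ni := fun c _ => funext fun k => k.elim0 }
  obtain ⟨x, hx⟩ := hne
  have hLI := fam_locInd hFm hx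
  set em : Fin 2 ⊕ (Fin n ⊕ Fin m) → Yi n m 0 := Sum.elim (fun j => Sum.inl (Fin.castLE (by norm_num) j))
    (Sum.elim (fun i => Sum.inr (Sum.inl i)) fun j => Sum.inr (Sum.inr (Sum.inr (Sum.inl j)))) with hem
  have hemi : Function.Injective em := by
    rintro (i | i | i) (j | j | j) hij
    · simp only [hem, Sum.elim_inl, Sum.inl.injEq] at hij
      rw [Fin.castLE_injective _ hij]
    · simp [hem] at hij
    · simp [hem] at hij
    · simp [hem] at hij
    · simp only [hem, Sum.elim_inl, Sum.elim_inr, Sum.inr.injEq, Sum.inl.injEq] at hij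
      rw [hij]
    · simp [hem] at hij
    · simp [hem] at hij
    · simp [hem] at hij
    · simp only [hem, Sum.elim_inr, Sum.inr.injEq, Sum.inl.injEq] at hij
      rw [hij]
  have h1 := hLI (MvPolynomial.rename (Option.map em) P) (by
    filter_upwards [hU.mem_nhds hx] with z hz
    rw [MvPolynomial.eval_rename, ← hP z hz]
    congr 1
    congr 1
    funext o
    rcases o with _ | o
    · rfl
    · rcases o with j | i | j
      · fin_cases j <;> rfl
      · rfl
      · rfl)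
  exact MvPolynomial.rename_injective _ (Option.map_injective hemi) (by rw [h1, map_zero])

end Pool.Agent.NH25.LG
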