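import Pool.Agent.NH25.LG.Val
import Pool.Agent.NH25.LG.Ind
import Pool.Agent.NH25.FR.Free

/-!
# The functions of one variable: periods, elliptic logarithms, logarithms
-/

set_option autoImplicit false

open Filter Topology
open scoped PeriodPair

namespace Pool.Agent.NH25.LG

open Pool.Agent.Y921.DB Pool.Agent.NH25.DL Pool.Agent.NH25.EL

variable {L : Type} [Field L] [NumberField L] [Algebra L ℂ] {n m : ℕ}

/-- the functions of one variable -/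
noncomputable def g1 (a : Fin 2 → L) (c : Fin n → L) (d : Fin m → L) (κ : Fin 2 → Fin 2 → ℂ) (κ' : Fin n → Fin 2 → ℂ)
    (ρ : Fin n → ℂ) (z t : ℂ) : Fin 2 ⊕ (Fin n ⊕ Fin m) → ℂ :=
  Sum.elim (fun j => κ j 0 * (VL (J a 0 0) z - VL (J a 0 1) z) + κ j 1 * (VL (J a 1 0) z - VL (J a 1 1) z))
    (Sum.elim (fun i => κ' i 0 * (VL (J a 0 0) z - VL (J a 0 1) z) + κ' i 1 * (VL (J a 1 0) z - VL (J a 1 1) z) +
      ρ i * (VL (ww a (c i) 0) z - VL (ww a (c i) 1) z))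
      (open Classical in fun j => if d j = 0 then -t else VL (lg (d j)) z))

variable {a : Fin 2 → L} {c : Fin n → L} {d : Fin m → L} {Λ : ℂ → PeriodPair} {h : Fin 2 → ℂ → ℂ} {p q y : Fin n → ℂ → ℂ}

/-- the constants -/
noncomputable def k1 (a : Fin 2 → L) (Λ : ℂ → PeriodPair) (h : Fin 2 → ℂ → ℂ) (j k : Fin 2) : ℂ :=
  (h j 0 + (algebraMap L ℂ (a k) - sg (algebraMap L ℂ (a 0)) (algebraMap L ℂ (a 1)) 0) *
    (![(Λ 0).ω₁, (Λ 0).ω₂] : Fin 2 → ℂ) j) / (algebraMap L ℂ (a 0) - algebraMap L ℂ (a 1))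

/-- the constants -/
noncomputable def k2 (a : Fin 2 → L) (p q : Fin n → ℂ → ℂ) (i : Fin n) (k : Fin 2) : ℂ :=
  (q i 0 + (algebraMap L ℂ (a k) - sg (algebraMap L ℂ (a 0)) (algebraMap L ℂ (a 1)) 0) * p i 0) /
    (algebraMap L ℂ (a 0) - algebraMap L ℂ (a 1))

/-- the constants -/
noncomputable def k3 (a : Fin 2 → L) (c : Fin n → L) (y : Fin n → ℂ → ℂ) (i : Fin n) : ℂ :=
  y i 0 / algebraMap L ℂ (c i) / (algebraMap L ℂ (a 0) - algebraMap L ℂ (a 1))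

section

variable (ha : ∀ j, a j ≠ 0) (h01 : a 0 ≠ a 1)
  (hL : ∀ᶠ z : ℂ in 𝓝 0, Lt (algebraMap L ℂ (a 0)) (algebraMap L ℂ (a 1)) Λ h z)
include ha h01 hL

theorem val_om (j : Fin 2) : ∀ᶠ z : ℂ in 𝓝 0, (![(Λ z).ω₁, (Λ z).ω₂] : Fin 2 → ℂ) j =
    k1 a Λ h j 0 * (VL (J a 0 0) z - VL (J a 0 1) z) + k1 a Λ h j 1 * (VL (J a 1 0) z - VL (J a 1 1) z) := by
  have hx : ∀ j, algebraMap L ℂ (a j) ≠ 0 := fun j => (map_ne_zero_iff _ (algebraMap L ℂ).injective).2 (ha j)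
  have h01' : algebraMap L ℂ (a 0) - algebraMap L ℂ (a 1) ≠ 0 :=
    sub_ne_zero.2 fun e => h01 ((algebraMap L ℂ).injective e)
  have hne : ∀ j, ∀ᶠ z : ℂ in 𝓝 0, z - algebraMap L ℂ (a j) ≠ 0 := by
    intro j
    have h2 : Continuous fun z : ℂ => z - algebraMap L ℂ (a j) := by fun_prop
    exact h2.continuousAt.eventually_ne (by simpa using hx j)
  have hd : ∀ᶠ z : ℂ in 𝓝 0, HasDerivAt (fun z => (![(Λ z).ω₁, (Λ z).ω₂] : Fin 2 → ℂ) j)
      (be (algebraMap L ℂ (a 0)) (algebraMap L ℂ (a 1)) z * ((z - sg (algebraMap L ℂ (a 0)) (algebraMap L ℂ (a 1)) z) *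
        (![(Λ z).ω₁, (Λ z).ω₂] : Fin 2 → ℂ) j + h j z + 0)) z ∧
      HasDerivAt (h j) (-be (algebraMap L ℂ (a 0)) (algebraMap L ℂ (a 1)) z *
        ((z - sg (algebraMap L ℂ (a 0)) (algebraMap L ℂ (a 1)) z) * h j z +
        G2 (algebraMap L ℂ (a 0)) (algebraMap L ℂ (a 1)) z / 12 * (![(Λ z).ω₁, (Λ z).ω₂] : Fin 2 → ℂ) j +
        (z - sg (algebraMap L ℂ (a 0)) (algebraMap L ℂ (a 1)) z) * 0)) z := by
    filter_upwards [hL] with z hz
    simp only [mul_zero, add_zero]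
    fin_cases j
    · exact ⟨hz.d1, hz.e1⟩
    · exact ⟨hz.d2, hz.e2⟩
  have key := rep_sol a (a 0) ha (K0 := fun z => h j z + (algebraMap L ℂ (a 0) - sg (algebraMap L ℂ (a 0)) (algebraMap L ℂ (a 1)) z) *
      (![(Λ z).ω₁, (Λ z).ω₂] : Fin 2 → ℂ) j)
    (K1 := fun z => h j z + (algebraMap L ℂ (a 1) - sg (algebraMap L ℂ (a 0)) (algebraMap L ℂ (a 1)) z) *
      (![(Λ z).ω₁, (Λ z).ω₂] : Fin 2 → ℂ) j) (R := fun _ => 0) (ρ := 0) (by simp)
    (by
      filter_upwards [hd, hne 0, hne 1] with z h1 h2 h3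
      exact KD0 h2 h3 h1.1 h1.2)
    (by
      filter_upwards [hd, hne 0, hne 1] with z h1 h2 h3
      exact KD1 h2 h3 h1.1 h1.2)
  filter_upwards [key] with z hz
  obtain ⟨e1, e2⟩ := hz
  unfold k1
  rw [div_mul_eq_mul_div, div_mul_eq_mul_div, ← add_div, eq_div_iff h01']
  linear_combination e1 - e2

variable {c0 : L} {p0 q0 y0 : ℂ → ℂ}

theorem val_pt (hc : c0 ≠ 0) (hc0 : c0 ≠ a 0) (hc1 : c0 ≠ a 1)
    (hp : ∀ᶠ z : ℂ in 𝓝 0, Lg (algebraMap L ℂ (a 0)) (algebraMap L ℂ (a 1)) (algebraMap L ℂ c0) Λ p0 q0 y0 z) :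
    ∀ᶠ z : ℂ in 𝓝 0, p0 z = (q0 0 + (algebraMap L ℂ (a 0) - sg (algebraMap L ℂ (a 0)) (algebraMap L ℂ (a 1)) 0) * p0 0) /
      (algebraMap L ℂ (a 0) - algebraMap L ℂ (a 1)) * (VL (J a 0 0) z - VL (J a 0 1) z) +
      (q0 0 + (algebraMap L ℂ (a 1) - sg (algebraMap L ℂ (a 0)) (algebraMap L ℂ (a 1)) 0) * p0 0) /
      (algebraMap L ℂ (a 0) - algebraMap L ℂ (a 1)) * (VL (J a 1 0) z - VL (J a 1 1) z) +
      y0 0 / algebraMap L ℂ c0 / (algebraMap L ℂ (a 0) - algebraMap L ℂ (a 1)) *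
        (VL (ww a c0 0) z - VL (ww a c0 1) z) := by
  have hx : ∀ j, algebraMap L ℂ (a j) ≠ 0 := fun j => (map_ne_zero_iff _ (algebraMap L ℂ).injective).2 (ha j)
  have hxc : algebraMap L ℂ c0 ≠ 0 := (map_ne_zero_iff _ (algebraMap L ℂ).injective).2 hc
  have h01' : algebraMap L ℂ (a 0) - algebraMap L ℂ (a 1) ≠ 0 :=
    sub_ne_zero.2 fun e => h01 ((algebraMap L ℂ).injective e)
  have hc0' : algebraMap L ℂ c0 - algebraMap L ℂ (a 0) ≠ 0 := sub_ne_zero.2 fun e => hc0 ((algebraMap L ℂ).injective e)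
  have hc1' : algebraMap L ℂ c0 - algebraMap L ℂ (a 1) ≠ 0 := sub_ne_zero.2 fun e => hc1 ((algebraMap L ℂ).injective e)
  have hne : ∀ j, ∀ᶠ z : ℂ in 𝓝 0, z - algebraMap L ℂ (a j) ≠ 0 := by
    intro j
    have h2 : Continuous fun z : ℂ => z - algebraMap L ℂ (a j) := by fun_prop
    exact h2.continuousAt.eventually_ne (by simpa using hx j)
  have hnec : ∀ᶠ z : ℂ in 𝓝 0, algebraMap L ℂ c0 - z ≠ 0 := by
    have h2 : Continuous fun z : ℂ => algebraMap L ℂ c0 - z := by fun_prop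
    exact h2.continuousAt.eventually_ne (by simpa using hxc)
  have hRD : ∀ᶠ z : ℂ in 𝓝 0, HasDerivAt (fun z => y0 z / (algebraMap L ℂ c0 - z))
      (y0 z / (algebraMap L ℂ c0 - z) / (2 * (algebraMap L ℂ c0 - z))) z := by
    have hy2 : ∀ᶠ z : ℂ in 𝓝 0, y0 z ^ 2 = (algebraMap L ℂ c0 - algebraMap L ℂ (a 0)) *
        (algebraMap L ℂ c0 - algebraMap L ℂ (a 1)) * (algebraMap L ℂ c0 - z) := by
      filter_upwards [hp] with z hz
      exact hz.y2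
    filter_upwards [hp, hnec, eventually_eventually_nhds.2 hy2] with z h1 h2 h3
    exact (RD h2 hc0' hc1' h1.ya h3).2
  have hR := rep_R c0 hc hRD
  have key := rep_sol a c0 ha (K0 := fun z => q0 z + (algebraMap L ℂ (a 0) - sg (algebraMap L ℂ (a 0)) (algebraMap L ℂ (a 1)) z) *
      p0 z)
    (K1 := fun z => q0 z + (algebraMap L ℂ (a 1) - sg (algebraMap L ℂ (a 0)) (algebraMap L ℂ (a 1)) z) * p0 z)
    (R := fun z => y0 z / (algebraMap L ℂ c0 - z)) (ρ := y0 0 / (algebraMap L ℂ c0 - 0)) hR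
    (by
      filter_upwards [hp, hne 0, hne 1] with z h1 h2 h3
      exact KD0 h2 h3 h1.dp h1.dq)
    (by
      filter_upwards [hp, hne 0, hne 1] with z h1 h2 h3
      exact KD1 h2 h3 h1.dp h1.dq)
  filter_upwards [key] with z hz
  obtain ⟨e1, e2⟩ := hz
  rw [div_mul_eq_mul_div, div_mul_eq_mul_div, div_mul_eq_mul_div, ← add_div, ← add_div, eq_div_iff h01']
  rw [sub_zero] at e1 e2
  linear_combination e1 - e2

end

/-- the values of the functions -/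
theorem val_all (ha : ∀ j, a j ≠ 0) (h01 : a 0 ≠ a 1)
    (hL : ∀ᶠ z : ℂ in 𝓝 0, Lt (algebraMap L ℂ (a 0)) (algebraMap L ℂ (a 1)) Λ h z) (hc : ∀ i, c i ≠ 0) (hc0 : ∀ i, c i ≠ a 0)
    (hc1 : ∀ i, c i ≠ a 1)
    (hp : ∀ i, ∀ᶠ z : ℂ in 𝓝 0, Lg (algebraMap L ℂ (a 0)) (algebraMap L ℂ (a 1)) (algebraMap L ℂ (c i)) Λ (p i) (q i) (y i) z) :
    ∀ᶠ z : ℂ in 𝓝 0, ∀ t, g1 a c d (k1 a Λ h) (k2 a p q) (k3 a c y) z t = Sum.elim ![(Λ z).ω₁, (Λ z).ω₂]
      (Sum.elim (fun i => p i z) (open Classical in fun j => if d j = 0 then -t else VL (lg (d j)) z)) := by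
  have e1 : ∀ᶠ z : ℂ in 𝓝 0, ∀ j, (![(Λ z).ω₁, (Λ z).ω₂] : Fin 2 → ℂ) j =
    k1 a Λ h j 0 * (VL (J a 0 0) z - VL (J a 0 1) z) + k1 a Λ h j 1 * (VL (J a 1 0) z - VL (J a 1 1) z) := by
    rw [Filter.eventually_all]
    exact fun j => val_om ha h01 hL j
  have e2 : ∀ᶠ z : ℂ in 𝓝 0, ∀ i, p i z = k2 a p q i 0 * (VL (J a 0 0) z - VL (J a 0 1) z) +
      k2 a p q i 1 * (VL (J a 1 0) z - VL (J a 1 1) z) + k3 a c y i * (VL (ww a (c i) 0) z - VL (ww a (c i) 1) z) := by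
    rw [Filter.eventually_all]
    exact fun i => val_pt ha h01 hL (hc i) (hc0 i) (hc1 i) (hp i)
  filter_upwards [e1, e2] with z h1 h2
  intro t
  funext v
  rcases v with j | i | j
  · exact (h1 j).symm
  · exact (h2 i).symm
  · rfl

/-- the functions of one variable are algebraically independent -/
theorem g1_ind (ha : ∀ j, a j ≠ 0) (h01 : a 0 ≠ a 1)
    (hL : ∀ᶠ z : ℂ in 𝓝 0, Lt (algebraMap L ℂ (a 0)) (algebraMap L ℂ (a 1)) Λ h z) (hc : ∀ i, c i ≠ 0) (hc0 : ∀ i, c i ≠ a 0)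
    (hc1 : ∀ i, c i ≠ a 1) (hci : Function.Injective c)
    (hp : ∀ i, ∀ᶠ z : ℂ in 𝓝 0, Lg (algebraMap L ℂ (a 0)) (algebraMap L ℂ (a 1)) (algebraMap L ℂ (c i)) Λ (p i) (q i) (y i) z)
    (hd : Function.Injective d) {r : ℝ} (hr : 0 < r) (P : MvPolynomial (Option (Fin 2 ⊕ (Fin n ⊕ Fin m))) ℂ)
    (hP : ∀ z t : ℂ, ‖z‖ < r →
      MvPolynomial.eval (fun o => o.elim z (g1 a c d (k1 a Λ h) (k2 a p q) (k3 a c y) z t)) P = 0) : P = 0 := by
  classical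
  have hinj := (algebraMap L ℂ).injective
  have hx : ∀ j, algebraMap L ℂ (a j) ≠ 0 := fun j => (map_ne_zero_iff _ hinj).2 (ha j)
  have hxc : ∀ i, algebraMap L ℂ (c i) ≠ 0 := fun i => (map_ne_zero_iff _ hinj).2 (hc i)
  -- the facts near zero
  have E1 : ∀ᶠ z : ℂ in 𝓝 0, ‖z‖ < r := by
    filter_upwards [Metric.ball_mem_nhds (0 : ℂ) hr] with z hz
    simpa using hz
  have E2 : ∀ᶠ z : ℂ in 𝓝 0, ∀ i,
      Lg (algebraMap L ℂ (a 0)) (algebraMap L ℂ (a 1)) (algebraMap L ℂ (c i)) Λ (p i) (q i) (y i) z :=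
    Filter.eventually_all.2 hp
  have E3 : ∀ᶠ z : ℂ in 𝓝 0, ∀ j, z - algebraMap L ℂ (a j) ≠ 0 := by
    rw [Filter.eventually_all]
    intro j
    have h2 : Continuous fun z : ℂ => z - algebraMap L ℂ (a j) := by fun_prop
    exact h2.continuousAt.eventually_ne (by simpa using hx j)
  have E4 : ∀ᶠ z : ℂ in 𝓝 0, ∀ i, algebraMap L ℂ (c i) - z ≠ 0 := by
    rw [Filter.eventually_all]
    intro i
    have h2 : Continuous fun z : ℂ => algebraMap L ℂ (c i) - z := by fun_prop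
    exact h2.continuousAt.eventually_ne (by simpa using hxc i)
  have E5 : ∀ᶠ z : ℂ in 𝓝 0, ∀ j, d j ≠ 0 → AnalyticAt ℂ (VL (lg (d j))) z ∧ algebraMap L ℂ (d j) + z ≠ 0 ∧
      HasDerivAt (VL (lg (d j))) (1 / (algebraMap L ℂ (d j) + z)) z ∧
      algebraMap L ℂ (d j) * Complex.exp (VL (lg (d j)) z) = algebraMap L ℂ (d j) + z := by
    rw [Filter.eventually_all]
    intro j
    by_cases hj : d j = 0
    · exact Filter.Eventually.of_forall fun z h => absurd hj h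
    · have hne : ∀ᶠ z : ℂ in 𝓝 0, algebraMap L ℂ (d j) + z ≠ 0 := by
        have h2 : Continuous fun z : ℂ => algebraMap L ℂ (d j) + z := by fun_prop
        refine h2.continuousAt.eventually_ne ?_
        rw [add_zero]
        exact (map_ne_zero_iff _ hinj).2 hj
      filter_upwards [vl_an (GFn_lg (d j)), hne, lg_der hj, lg_exp hj] with z h1 h2 h3 h4
      exact fun _ => ⟨h1, h2, h3, h4⟩
  have E6 := val_all (d := d) ha h01 hL hc hc0 hc1 hp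
  obtain ⟨ε, hε, hball⟩ := Metric.eventually_nhds_iff_ball.1 (E1.and (hL.and (E2.and (E3.and (E4.and (E5.and E6))))))
  set U : Set ℂ := Metric.ball ((ε / 2 : ℝ) : ℂ) (ε / 2) with hU
  have hUb : ∀ z ∈ U, z ∈ Metric.ball (0 : ℂ) ε := by
    intro z hz
    rw [hU, Metric.mem_ball, dist_eq_norm] at hz
    rw [Metric.mem_ball, dist_zero_right]
    have h1 : ‖((ε / 2 : ℝ) : ℂ)‖ = ε / 2 := by
      rw [Complex.norm_real, Real.norm_eq_abs, abs_of_pos (by linarith)]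
    calc ‖z‖ = ‖(z - ((ε / 2 : ℝ) : ℂ)) + ((ε / 2 : ℝ) : ℂ)‖ := by rw [sub_add_cancel]
      _ ≤ ‖z - ((ε / 2 : ℝ) : ℂ)‖ + ‖((ε / 2 : ℝ) : ℂ)‖ := norm_add_le _ _
      _ < ε := by rw [h1]; linarith
  have hUs : ∀ z ∈ U, z ∈ Complex.slitPlane := by
    intro z hz
    rw [hU, Metric.mem_ball, dist_eq_norm] at hz
    left
    have h1 := (Complex.abs_re_le_norm (z - ((ε / 2 : ℝ) : ℂ))).trans_lt hz
    rw [Complex.sub_re, Complex.ofReal_re, abs_lt] at h1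
    linarith [h1.1]
  have hUne : U.Nonempty := ⟨((ε / 2 : ℝ) : ℂ), Metric.mem_ball_self (by linarith)⟩
  refine ind (U := U) (a0 := algebraMap L ℂ (a 0)) (a1 := algebraMap L ℂ (a 1)) (Λ := Λ) (h := h)
    (c := fun i => algebraMap L ℂ (c i)) (p := p) (q := q) (y := y) (d := fun j => algebraMap L ℂ (d j))
    (l := fun j z => if d j = 0 then Complex.log z else VL (lg (d j)) z) Metric.isOpen_ball
    (convex_ball _ _).isPreconnected hUne (fun e => h01 (hinj e)) (fun z hz => (hball z (hUb z hz)).2.2.2.1 0)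
    (fun z hz => (hball z (hUb z hz)).2.2.2.1 1) (fun z hz => (hball z (hUb z hz)).2.1)
    (fun i j e => hci (hinj e)) (fun i z hz => (hball z (hUb z hz)).2.2.2.2.1 i) (fun i => ?_) (fun i => ?_)
    (fun i z hz => (hball z (hUb z hz)).2.2.1 i) (fun i j e => hd (hinj e)) (fun j z hz => ?_) (fun j z hz => ?_)
    (fun j z hz => ?_) (fun j => if d j = 0 then 1 else (algebraMap L ℂ (d j))⁻¹) (fun j z hz => ?_) P (fun z hz => ?_)
  · exact sub_ne_zero.2 fun e => hc0 i (hinj e)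
  · exact sub_ne_zero.2 fun e => hc1 i (hinj e)
  · by_cases hj : d j = 0
    · simp only [hj, map_zero, zero_add]
      exact Complex.slitPlane_ne_zero (hUs z hz)
    · exact ((hball z (hUb z hz)).2.2.2.2.2.1 j hj).2.1
  · by_cases hj : d j = 0
    · simp only [hj, if_true]
      exact analyticAt_clog (hUs z hz)
    · simp only [hj, if_false]
      exact ((hball z (hUb z hz)).2.2.2.2.2.1 j hj).1
  · by_cases hj : d j = 0
    · simp only [hj, if_true, map_zero, zero_add, one_div]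
      exact Complex.hasDerivAt_log (hUs z hz)
    · simp only [hj, if_false]
      exact ((hball z (hUb z hz)).2.2.2.2.2.1 j hj).2.2.1
  · by_cases hj : d j = 0
    · simp only [hj, if_true, map_zero, zero_add, one_mul]
      exact Complex.exp_log (Complex.slitPlane_ne_zero (hUs z hz))
    · simp only [hj, if_false]
      have h1 := ((hball z (hUb z hz)).2.2.2.2.2.1 j hj).2.2.2
      have h2 : algebraMap L ℂ (d j) ≠ 0 := (map_ne_zero_iff _ hinj).2 hj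
      rw [← h1, inv_mul_cancel_left₀ h2]
  · have h1 := hball z (hUb z hz)
    have h2 := hP z (-Complex.log z) h1.1
    rw [h1.2.2.2.2.2.2 (-Complex.log z)] at h2
    rw [← h2]
    congr 1
    congr 1
    funext o
    rcases o with _ | o
    · rfl
    · rcases o with j | i | j
      · rfl
      · rfl
      · show (if d j = 0 then Complex.log z else VL (lg (d j)) z) = _
        simp only [Option.elim_some, Sum.elim_inr, neg_neg]

/-- the functions of `k` variables -/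
noncomputable def fG {k : ℕ} (a : Fin k → Fin 2 → L) (c : Fin k → Fin n → L) (d : Fin k → Fin m → L)
    (κ : Fin k → Fin 2 → Fin 2 → ℂ) (κ' : Fin k → Fin n → Fin 2 → ℂ) (ρ : Fin k → Fin n → ℂ) (z t : Fin k → ℂ)
    (v : Fin k × (Fin 2 ⊕ (Fin n ⊕ Fin m))) : ℂ :=
  g1 (a v.1) (c v.1) (d v.1) (κ v.1) (κ' v.1) (ρ v.1) (z v.1) (t v.1) v.2

theorem fG_ind {k : ℕ} (a : Fin k → Fin 2 → L) (c : Fin k → Fin n → L) (d : Fin k → Fin m → L)
    (Λ : Fin k → ℂ → PeriodPair) (h : Fin k → Fin 2 → ℂ → ℂ) (p q y : Fin k → Fin n → ℂ → ℂ)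
    (ha : ∀ l j, a l j ≠ 0) (h01 : ∀ l, a l 0 ≠ a l 1)
    (hL : ∀ l, ∀ᶠ z : ℂ in 𝓝 0, Lt (algebraMap L ℂ (a l 0)) (algebraMap L ℂ (a l 1)) (Λ l) (h l) z)
    (hc : ∀ l i, c l i ≠ 0) (hc0 : ∀ l i, c l i ≠ a l 0)
    (hc1 : ∀ l i, c l i ≠ a l 1) (hci : ∀ l, Function.Injective (c l))
    (hp : ∀ l i, ∀ᶠ z : ℂ in 𝓝 0, Lg (algebraMap L ℂ (a l 0)) (algebraMap L ℂ (a l 1)) (algebraMap L ℂ (c l i)) (Λ l)
      (p l i) (q l i) (y l i) z)
    (hd : ∀ l, Function.Injective (d l)) {r : ℝ} (hr : 0 < r) :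
    Pool.Agent.NH25.FR.Ind (fG a c d (fun l => k1 (a l) (Λ l) (h l)) (fun l => k2 (a l) (p l) (q l))
      (fun l => k3 (a l) (c l) (y l))) r :=
  Pool.Agent.NH25.FR.ind_of (fun l z t => g1 (a l) (c l) (d l) (k1 (a l) (Λ l) (h l)) (k2 (a l) (p l) (q l))
      (k3 (a l) (c l) (y l)) z t) fun l P hP =>
    g1_ind (ha l) (h01 l) (hL l) (hc l) (hc0 l) (hc1 l) (hci l) (hp l) (hd l) hr P fun z t hz => hP z t hz

end Pool.Agent.NH25.LG
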