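import Pool.Agent.NH25.LG.Rep
import Pool.Agent.NH25.FR.Lin
import Pool.Agent.NH25.EL.Cfg

/-!
# Periods, elliptic logarithms and logarithms in the families `y² = (x - a₀) (x - a₁) (x - s)`
-/

set_option autoImplicit false

open Module Filter Topology
open scoped PeriodPair

namespace Pool.Agent.NH25.LG

open Pool.Agent.Y921.DB Pool.Agent.NH25.DL Pool.Agent.NH25.FR Pool.Agent.NH25.UF Pool.Agent.Y916.Hy Pool.Agent.NH25.EL

variable {k n m : ℕ} {κ₁ : Type}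

/-- the data -/
structure Dat (k n m : ℕ) where
  a : Fin k → Fin 2 → ℂ
  c : Fin k → Fin n → ℂ
  d : Fin k → Fin m → ℂ
  alga : ∀ l j, IsAlgebraic ℚ (a l j)
  algc : ∀ l i, IsAlgebraic ℚ (c l i)
  algd : ∀ l j, IsAlgebraic ℚ (d l j)
  a0 : ∀ l j, a l j ≠ 0
  a01 : ∀ l, a l 0 ≠ a l 1
  c0 : ∀ l i, c l i ≠ 0
  ca : ∀ l i j, c l i ≠ a l j
  injc : ∀ l, Function.Injective (c l)
  injd : ∀ l, Function.Injective (d l)

/-- the numbers -/
noncomputable def nums (Λ : Fin k → PeriodPair) (p : Fin k → Fin n → ℂ) (t : Fin k → Fin m → ℂ)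
    (v : Fin k × (Fin 2 ⊕ (Fin n ⊕ Fin m))) : ℂ :=
  Sum.elim ![(Λ v.1).ω₁, (Λ v.1).ω₂] (Sum.elim (p v.1) (t v.1)) v.2

/-- no relations of degree `δ` over the number fields of degree at most `D` -/
def NoRel (F : Dat k n m) (w : κ₁ → ℂ) (D δ : ℕ) (s : Fin k → ℂ) : Prop :=
  ∀ (Λ : Fin k → PeriodPair) (p : Fin k → Fin n → ℂ) (t : Fin k → Fin m → ℂ),
    (∀ l, (Λ l).g₂ = G2 (F.a l 0) (F.a l 1) (s l) ∧ (Λ l).g₃ = G3 (F.a l 0) (F.a l 1) (s l)) →
    (∀ l i, p l i ∉ (Λ l).lattice ∧ ℘[Λ l] (p l i) = F.c l i - sg (F.a l 0) (F.a l 1) (s l)) →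
    (∀ l j, Complex.exp (t l j) = F.d l j + s l) →
    ∀ K : IntermediateField ℚ ℂ, FiniteDimensional ℚ K → finrank ℚ K ≤ D →
    ∀ P : MvPolynomial (κ₁ ⊕ (Fin k × (Fin 2 ⊕ (Fin n ⊕ Fin m)))) ℂ, P.totalDegree ≤ δ → (∀ e, P.coeff e ∈ K) →
      MvPolynomial.eval (Sum.elim w (nums Λ p t)) P = 0 → sp w P = 0

lemma wp_congr {A B : PeriodPair} (h : A.lattice = B.lattice) (z : ℂ) : ℘[A] z = ℘[B] z := by
  unfold PeriodPair.weierstrassP
  rw [h]

lemma int_ind (A : PeriodPair) {x y x' y' : ℤ} (h : (x : ℂ) * A.ω₁ + y * A.ω₂ = x' * A.ω₁ + y' * A.ω₂) : x = x' ∧ y = y' := by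
  have h1 := LinearIndependent.pair_iff.1 A.indep ((x - x' : ℤ) : ℝ) ((y - y' : ℤ) : ℝ) (by
    rw [Complex.real_smul, Complex.real_smul]
    push_cast
    linear_combination h)
  constructor
  · have := h1.1
    rw [Int.cast_eq_zero] at this
    omega
  · have := h1.2
    rw [Int.cast_eq_zero] at this
    omega

/-- two bases of a lattice -/
theorem bases {A B : PeriodPair} (h : A.lattice = B.lattice) : ∃ M N : Fin 2 → Fin 2 → ℤ,
    (∀ j, (![A.ω₁, A.ω₂] : Fin 2 → ℂ) j = M j 0 * B.ω₁ + M j 1 * B.ω₂) ∧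
    ∀ i j, M i 0 * N 0 j + M i 1 * N 1 j = if i = j then 1 else 0 := by
  have hA : ∀ j, (![A.ω₁, A.ω₂] : Fin 2 → ℂ) j ∈ B.lattice := by
    intro j
    rw [← h]
    fin_cases j
    · exact A.ω₁_mem_lattice
    · exact A.ω₂_mem_lattice
  have hB : ∀ j, (![B.ω₁, B.ω₂] : Fin 2 → ℂ) j ∈ A.lattice := by
    intro j
    rw [h]
    fin_cases j
    · exact B.ω₁_mem_lattice
    · exact B.ω₂_mem_lattice
  simp only [PeriodPair.mem_lattice] at hA hB
  choose x y hxy using hA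
  choose x' y' hxy' using hB
  refine ⟨fun j => ![x j, y j], fun j => ![x' j, y' j], fun j => ?_, fun i j => ?_⟩
  · exact (hxy j).symm
  · have e0 := hxy' 0
    have e1 := hxy' 1
    have e2 := hxy i
    have key : ((x i * x' 0 + y i * x' 1 : ℤ) : ℂ) * A.ω₁ + ((x i * y' 0 + y i * y' 1 : ℤ) : ℂ) * A.ω₂ =
        (![A.ω₁, A.ω₂] : Fin 2 → ℂ) i := by
      rw [← e2]
      push_cast
      simp only [Matrix.cons_val_zero, Matrix.cons_val_one, Matrix.cons_val_fin_one] at e0 e1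
      linear_combination (x i : ℂ) * e0 + (y i : ℂ) * e1
    fin_cases i
    · have h1 := int_ind A (x' := 1) (y' := 0) (key.trans (by simp))
      fin_cases j
      · simpa using h1.1
      · simpa using h1.2
    · have h1 := int_ind A (x' := 0) (y' := 1) (key.trans (by simp))
      fin_cases j
      · simpa using h1.1
      · simpa using h1.2

/-- a linear combination with few terms -/
lemma comb' {σ : Type} [Fintype σ] [DecidableEq σ] {r : ℕ} (o : Fin r → σ) (b : Fin r → ℚ) :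
    ∃ β : σ → ℚ, ∀ x : σ → ℂ, ∑ v, (β v : ℂ) * x v = ∑ i, (b i : ℂ) * x (o i) := by
  refine ⟨fun v => ∑ i, if o i = v then b i else 0, fun x => ?_⟩
  have h1 : ∀ v, (((∑ i, if o i = v then b i else 0 : ℚ)) : ℂ) * x v = ∑ i, if o i = v then (b i : ℂ) * x v else 0 := by
    intro v
    push_cast
    rw [Finset.sum_mul]
    refine Finset.sum_congr rfl fun i _ => ?_
    split_ifs <;> simp
  rw [Finset.sum_congr rfl fun v _ => h1 v, Finset.sum_comm]
  refine Finset.sum_congr rfl fun i _ => ?_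
  rw [Finset.sum_ite_eq, if_pos (Finset.mem_univ _)]

/-- the indices of the constants -/
abbrev KK (k m : ℕ) : Type := (Fin k × Fin m) ⊕ Unit

/-- the constants -/
noncomputable def cc (F : Dat k n m) : KK k m → ℂ :=
  Sum.elim (fun v => Complex.log (F.d v.1 v.2)) fun _ => 2 * Real.pi * Complex.I

/-- the existence of the families -/
def FamEx : Prop := ∀ a0 a1 : ℂ, a0 ≠ 0 → a1 ≠ 0 → a0 ≠ a1 → ∃ (Λ : ℂ → PeriodPair) (h : Fin 2 → ℂ → ℂ),
  (∀ᶠ s in 𝓝 (0 : ℂ), Lt a0 a1 Λ h s) ∧ ∀ c : ℂ, c ≠ 0 → c ≠ a0 → c ≠ a1 → ∃ p q y : ℂ → ℂ,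
    ∀ᶠ s in 𝓝 (0 : ℂ), Lg a0 a1 c Λ p q y s

/-- the invariants determine the lattice -/
def LatEq : Prop := ∀ A B : PeriodPair, A.g₂ = B.g₂ → A.g₃ = B.g₃ → A.lattice = B.lattice

variable [Fintype κ₁]

/-- **The relations.** -/
theorem relG' (HF : FamEx) (HL : LatEq) (F : Dat k n m) (hk : 1 ≤ k) (w : κ₁ → ℂ) :
    ∃ (L : Type) (_ : Field L) (_ : NumberField L) (_ : Algebra L ℂ)
    (N : Fin k → ℕ) (H : ∀ l, Matrix (Fin (N l)) (Fin (N l)) (PowerSeries L)) (κ₂ : Type) (_ : Fintype κ₂)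
    (P : (Fin k → ℂ) → (Fin k → ℂ) → κ₂ → ℂ) (ρ : ℝ), 0 < ρ ∧ (∀ l, LFam (0 : Matrix (Fin (N l)) (Fin (N l)) ℤ) (H l)) ∧
      Nonempty (RepL P ρ H) ∧ ∀ r, 0 < r → r ≤ ρ → ∀ (D δ : ℕ) (s : Fin k → ℂ), (∀ l, s l ≠ 0) → Pnt D P r δ s →
        NoRel F w D δ s ∧ (∀ l j, s l ≠ F.a l j) ∧ (∀ l i, s l ≠ F.c l i) ∧ ∀ l j, F.d l j + s l ≠ 0 := by
  classical
  obtain ⟨L, i1, i2, i3, x', hx'⟩ := number_field
    (σ := (Fin k × Fin 2) ⊕ ((Fin k × Fin n) ⊕ (Fin k × Fin m)))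
    (Sum.elim (fun v => F.a v.1 v.2) (Sum.elim (fun v => F.c v.1 v.2) fun v => F.d v.1 v.2)) (by
      rintro (v | v | v)
      · exact F.alga _ _
      · exact F.algc _ _
      · exact F.algd _ _)
  set a : Fin k → Fin 2 → L := fun l j => x' (Sum.inl (l, j)) with ha_def
  set c : Fin k → Fin n → L := fun l i => x' (Sum.inr (Sum.inl (l, i))) with hc_def
  set d : Fin k → Fin m → L := fun l j => x' (Sum.inr (Sum.inr (l, j))) with hd_def
  have ea : ∀ l j, algebraMap L ℂ (a l j) = F.a l j := fun l j => hx' _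
  have ec : ∀ l i, algebraMap L ℂ (c l i) = F.c l i := fun l i => hx' _
  have ed : ∀ l j, algebraMap L ℂ (d l j) = F.d l j := fun l j => hx' _
  have ha : ∀ l j, a l j ≠ 0 := fun l j h => F.a0 l j (by rw [← ea, h, map_zero])
  have h01 : ∀ l, a l 0 ≠ a l 1 := fun l h => F.a01 l (by rw [← ea, h, ea])
  have hc : ∀ l i, c l i ≠ 0 := fun l j h => F.c0 l j (by rw [← ec, h, map_zero])
  have hca : ∀ l i j, c l i ≠ a l j := fun l i j h => F.ca l i j (by rw [← ec, h, ea])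
  have hci : ∀ l, Function.Injective (c l) := fun l i i' h => F.injc l (by rw [← ec, h, ec])
  have hdi : ∀ l, Function.Injective (d l) := fun l i i' h => F.injd l (by rw [← ed, h, ed])
  choose Λ h hL hp' using fun l => HF (F.a l 0) (F.a l 1) (F.a0 l 0) (F.a0 l 1) (F.a01 l)
  choose p q y hp using fun l i => hp' l (F.c l i) (F.c0 l i) (F.ca l i 0) (F.ca l i 1)
  -- the facts near zero
  have hL' : ∀ l, ∀ᶠ z : ℂ in 𝓝 0, Lt (algebraMap L ℂ (a l 0)) (algebraMap L ℂ (a l 1)) (Λ l) (h l) z := by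
    intro l
    rw [ea, ea]
    exact hL l
  have hp2 : ∀ l i, ∀ᶠ z : ℂ in 𝓝 0, Lg (algebraMap L ℂ (a l 0)) (algebraMap L ℂ (a l 1)) (algebraMap L ℂ (c l i)) (Λ l)
      (p l i) (q l i) (y l i) z := by
    intro l i
    rw [ea, ea, ec]
    exact hp l i
  have E1 : ∀ᶠ s : ℂ in 𝓝 0, ∀ l, ∀ t, g1 (a l) (c l) (d l) (k1 (a l) (Λ l) (h l)) (k2 (a l) (p l) (q l)) (k3 (a l) (c l) (y l)) s t =
      Sum.elim ![(Λ l s).ω₁, (Λ l s).ω₂] (Sum.elim (fun i => p l i s) (fun j => if d l j = 0 then -t else VL (lg (d l j)) s)) := by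
    rw [Filter.eventually_all]
    exact fun l => val_all (ha l) (h01 l) (hL' l) (hc l) (fun i => hca l i 0) (fun i => hca l i 1) (hp2 l)
  have E2 : ∀ᶠ s : ℂ in 𝓝 0, ∀ l, Lt (F.a l 0) (F.a l 1) (Λ l) (h l) s := Filter.eventually_all.2 hL
  have E3 : ∀ᶠ s : ℂ in 𝓝 0, ∀ l i, Lg (F.a l 0) (F.a l 1) (F.c l i) (Λ l) (p l i) (q l i) (y l i) s :=
    Filter.eventually_all.2 fun l => Filter.eventually_all.2 (hp l)
  have E4 : ∀ᶠ s : ℂ in 𝓝 0, ∀ l j, d l j ≠ 0 → F.d l j * Complex.exp (VL (lg (d l j)) s) = F.d l j + s := by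
    rw [Filter.eventually_all]
    intro l
    rw [Filter.eventually_all]
    intro j
    by_cases hj : d l j = 0
    · exact Filter.Eventually.of_forall fun s h => absurd hj h
    · filter_upwards [lg_exp hj] with s hs
      intro _
      rw [← ed]
      exact hs
  have E5 : ∀ᶠ s : ℂ in 𝓝 0, ∀ l j, s ≠ F.a l j := by
    rw [Filter.eventually_all]
    intro l
    rw [Filter.eventually_all]
    intro j
    exact continuousAt_id.eventually_ne (F.a0 l j).symm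
  have E6 : ∀ᶠ s : ℂ in 𝓝 0, ∀ l i, s ≠ F.c l i := by
    rw [Filter.eventually_all]
    intro l
    rw [Filter.eventually_all]
    intro i
    exact continuousAt_id.eventually_ne (F.c0 l i).symm
  obtain ⟨ρ, hρ, hball⟩ := Metric.eventually_nhds_iff_ball.1 (E1.and (E2.and (E3.and (E4.and (E5.and E6)))))
  obtain ⟨N, H, hH, hR⟩ := repG a c d ha hc (fun l => k1 (a l) (Λ l) (h l)) (fun l => k2 (a l) (p l) (q l))
    (fun l => k3 (a l) (c l) (y l)) ⟨0, hk⟩ (Sum.elim w (cc F)) ρ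
  refine ⟨L, i1, i2, i3, N, H, (κ₁ ⊕ KK k m) ⊕ (Fin k × (Fin 2 ⊕ (Fin n ⊕ Fin m))), inferInstance, _, ρ, hρ, hH, hR,
    fun r hr hrρ D δ s hs hP => ?_⟩
  have hsρ : ∀ l, s l ∈ Metric.ball (0 : ℂ) ρ := fun l => by
    rw [Metric.mem_ball, dist_zero_right]
    exact (hP.1 l).trans_le hrρ
  refine ⟨fun M p₁ t hM hp₁ ht K hK hKD Q hQd hQc hQ0 => ?_, fun l j => (hball _ (hsρ l)).2.2.2.2.1 l j,
    fun l i => (hball _ (hsρ l)).2.2.2.2.2 l i, fun l j => ?_⟩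
  swap
  · by_cases hj : d l j = 0
    · rw [← ed, hj, map_zero, zero_add]
      exact hs l
    · rw [← (hball (s l) (hsρ l)).2.2.2.1 l j hj, ← ed]
      exact mul_ne_zero ((map_ne_zero_iff _ (algebraMap L ℂ).injective).2 hj) (Complex.exp_ne_zero _)
  have hInd := fG_ind a c d Λ h p q y ha h01 hL' hc (fun l i => hca l i 0) (fun l i => hca l i 1) hci hp2 hdi hr
  set f := fG a c d (fun l => k1 (a l) (Λ l) (h l)) (fun l => k2 (a l) (p l) (q l)) (fun l => k3 (a l) (c l) (y l)) with hf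
  -- the logarithms
  set τ : Fin k → ℂ := fun l => Complex.log (1 / s l) with hτ
  have hτe : ∀ l, Complex.exp (τ l) = 1 / s l := fun l => Complex.exp_log (one_div_ne_zero (hs l))
  have hfv : ∀ l v, f s τ (l, v) = Sum.elim ![(Λ l (s l)).ω₁, (Λ l (s l)).ω₂]
      (Sum.elim (fun i => p l i (s l)) (fun j => if d l j = 0 then -τ l else VL (lg (d l j)) (s l))) v := by
    intro l v
    exact congrFun ((hball (s l) (hsρ l)).1 l (τ l)) v
  -- the lattices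
  have hlat : ∀ l, (M l).lattice = (Λ l (s l)).lattice := fun l => HL _ _
    ((hM l).1.trans ((hball (s l) (hsρ l)).2.1 l).g2.symm) ((hM l).2.trans ((hball (s l) (hsρ l)).2.1 l).g3.symm)
  choose A B hA hAB using fun l => bases (hlat l)
  -- the points
  have hpt : ∀ l i, ∃ (ε m₁ m₂ : ℤ), (ε = 1 ∨ ε = -1) ∧ p₁ l i = ε * p l i (s l) + m₁ * (Λ l (s l)).ω₁ + m₂ * (Λ l (s l)).ω₂ := by
    intro l i
    have h1 := (hball (s l) (hsρ l)).2.2.1 l i
    obtain ⟨hp1, hp3⟩ := hp₁ l i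
    rw [wp_congr (hlat l)] at hp3
    rw [hlat l] at hp1
    obtain ⟨ε, m₁, m₂, hε, q1, -⟩ := qp' (Λ l (s l)) h1.nm hp1 (by rw [hp3, h1.wp])
    exact ⟨ε, m₁, m₂, hε, q1⟩
  choose ε m₁ m₂ hε hq using hpt
  have hM' : ∀ v : Fin k × (Fin 2 ⊕ (Fin n ⊕ Fin m)), ∃ Mv : Fin k × (Fin 2 ⊕ (Fin n ⊕ Fin m)) → ℚ, ∀ x : _ → ℂ,
      ∑ u, (Mv u : ℂ) * x u = (match v with
        | (l, Sum.inl j) => (A l j 0 : ℂ) * x (l, Sum.inl 0) + A l j 1 * x (l, Sum.inl 1)
        | (l, Sum.inr (Sum.inl i)) => (ε l i : ℂ) * x (l, Sum.inr (Sum.inl i)) + m₁ l i * x (l, Sum.inl 0) +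
            m₂ l i * x (l, Sum.inl 1)
        | (l, Sum.inr (Sum.inr j)) => x (l, Sum.inr (Sum.inr j))) := by
    rintro ⟨l, j | i | j⟩
    · obtain ⟨β, hβ⟩ := comb' (![(l, Sum.inl 0), (l, Sum.inl 1)] : Fin 2 → Fin k × (Fin 2 ⊕ (Fin n ⊕ Fin m)))
        ![(A l j 0 : ℚ), (A l j 1 : ℚ)]
      refine ⟨β, fun x => ?_⟩
      rw [hβ, Fin.sum_univ_two]
      simp
    · obtain ⟨β, hβ⟩ := comb' (![(l, Sum.inr (Sum.inl i)), (l, Sum.inl 0), (l, Sum.inl 1)] :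
        Fin 3 → Fin k × (Fin 2 ⊕ (Fin n ⊕ Fin m))) ![(ε l i : ℚ), (m₁ l i : ℚ), (m₂ l i : ℚ)]
      refine ⟨β, fun x => ?_⟩
      rw [hβ, Fin.sum_univ_three]
      simp
    · obtain ⟨β, hβ⟩ := comb' (![(l, Sum.inr (Sum.inr j))] : Fin 1 → Fin k × (Fin 2 ⊕ (Fin n ⊕ Fin m))) ![(1 : ℚ)]
      refine ⟨β, fun x => ?_⟩
      rw [hβ, Fin.sum_univ_one]
      simp
  choose Mv hMv using hM'
  have hβ' : ∀ v : Fin k × (Fin 2 ⊕ (Fin n ⊕ Fin m)), ∃ β : κ₁ ⊕ KK k m → ℚ,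
      nums M p₁ t v = ∑ u, (Mv v u : ℂ) * f s τ u + ∑ o, (β o : ℂ) * (Sum.elim w (cc F) : κ₁ ⊕ KK k m → ℂ) o := by
    rintro ⟨l, j | i | j⟩
    · refine ⟨fun _ => 0, ?_⟩
      rw [hMv]
      simp only [hfv, Rat.cast_zero, zero_mul, Finset.sum_const_zero, add_zero]
      exact hA l j
    · refine ⟨fun _ => 0, ?_⟩
      rw [hMv]
      simp only [hfv, Rat.cast_zero, zero_mul, Finset.sum_const_zero, add_zero]
      exact hq l i
    · by_cases hj : d l j = 0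
      · -- the logarithm of `s`
        have h1 : Complex.exp (t l j) = Complex.exp (-τ l) := by
          rw [ht, ← ed, hj, map_zero, zero_add, Complex.exp_neg, hτe, one_div, inv_inv]
        obtain ⟨z, hz⟩ := Complex.exp_eq_exp_iff_exists_int.1 h1
        obtain ⟨β, hβ⟩ := comb' (![Sum.inr (Sum.inr ())] : Fin 1 → κ₁ ⊕ KK k m) ![(z : ℚ)]
        refine ⟨β, ?_⟩
        rw [hβ, Fin.sum_univ_one, hMv]
        simp only [hfv, Sum.elim_inr, hj, if_true]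
        show t l j = -τ l + ((z : ℚ) : ℂ) * (2 * Real.pi * Complex.I)
        rw [hz]
        push_cast
        ring
      · have hdj : F.d l j ≠ 0 := by
          rw [← ed]
          exact (map_ne_zero_iff _ (algebraMap L ℂ).injective).2 hj
        have h1 : Complex.exp (t l j) = Complex.exp (Complex.log (F.d l j) + VL (lg (d l j)) (s l)) := by
          rw [ht, Complex.exp_add, Complex.exp_log hdj]
          exact ((hball (s l) (hsρ l)).2.2.2.1 l j hj).symm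
        obtain ⟨z, hz⟩ := Complex.exp_eq_exp_iff_exists_int.1 h1
        obtain ⟨β, hβ⟩ := comb' (![Sum.inr (Sum.inl (l, j)), Sum.inr (Sum.inr ())] : Fin 2 → κ₁ ⊕ KK k m) ![1, (z : ℚ)]
        refine ⟨β, ?_⟩
        rw [hβ, Fin.sum_univ_two, hMv]
        simp only [hfv, Sum.elim_inr, hj, if_false]
        show t l j = VL (lg (d l j)) (s l) + (((1 : ℚ) : ℂ) * Complex.log (F.d l j) +
          ((z : ℚ) : ℂ) * (2 * Real.pi * Complex.I))
        rw [hz]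
        push_cast
        ring
  choose β hβ using hβ'
  have hABc : ∀ l i j, (A l i 0 : ℂ) * B l 0 j + A l i 1 * B l 1 j = if i = j then 1 else 0 := by
    intro l i j
    have := congrArg (fun x : ℤ => (x : ℂ)) (hAB l i j)
    push_cast at this
    exact this
  refine lin hInd hP hK hKD hτe hQd hQc _ Mv β (fun x => ?_) hβ hQ0
  have hx0 : ∀ l (j : Fin 2), (A l j 0 : ℂ) * ((B l 0 0 : ℂ) * x (l, Sum.inl 0) + B l 0 1 * x (l, Sum.inl 1)) +
      A l j 1 * ((B l 1 0 : ℂ) * x (l, Sum.inl 0) + B l 1 1 * x (l, Sum.inl 1)) = x (l, Sum.inl j) := by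
    intro l j
    have h1 := hABc l j 0
    have h2 := hABc l j 1
    fin_cases j
    · simp only [Fin.zero_eta, Fin.isValue, if_true] at h1 h2 ⊢
      rw [if_neg (by decide)] at h2
      linear_combination (x (l, Sum.inl 0)) * h1 + (x (l, Sum.inl 1)) * h2
    · simp only [Fin.mk_one, Fin.isValue, if_true] at h1 h2 ⊢
      rw [if_neg (by decide)] at h1
      linear_combination (x (l, Sum.inl 0)) * h1 + (x (l, Sum.inl 1)) * h2
  refine ⟨fun u => Sum.elim (fun j => (B u.1 j 0 : ℂ) * x (u.1, Sum.inl 0) + B u.1 j 1 * x (u.1, Sum.inl 1))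
    (Sum.elim (fun i => (ε u.1 i : ℂ) * (x (u.1, Sum.inr (Sum.inl i)) -
      m₁ u.1 i * ((B u.1 0 0 : ℂ) * x (u.1, Sum.inl 0) + B u.1 0 1 * x (u.1, Sum.inl 1)) -
      m₂ u.1 i * ((B u.1 1 0 : ℂ) * x (u.1, Sum.inl 0) + B u.1 1 1 * x (u.1, Sum.inl 1))))
      fun j => x (u.1, Sum.inr (Sum.inr j))) u.2, fun v => ?_⟩
  rw [hMv]
  obtain ⟨l, j | i | j⟩ := v
  · exact hx0 l j
  · have h2 : (ε l i : ℂ) * ε l i = 1 := by
      rcases hε l i with h | h <;> rw [h] <;> norm_num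
    simp only [Sum.elim_inl, Sum.elim_inr]
    linear_combination (x (l, Sum.inr (Sum.inl i)) -
      m₁ l i * ((B l 0 0 : ℂ) * x (l, Sum.inl 0) + B l 0 1 * x (l, Sum.inl 1)) -
      m₂ l i * ((B l 1 0 : ℂ) * x (l, Sum.inl 0) + B l 1 1 * x (l, Sum.inl 1))) * h2
  · rfl

end Pool.Agent.NH25.LG
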