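import Pool.Agent.NH25.LG.Fun
import Pool.Agent.NH25.EL.Rep

/-!
# The representation of the functions
-/

set_option autoImplicit false

open PowerSeries

namespace Pool.Agent.NH25.LG

open Pool.Agent.Y921.DB Pool.Agent.NH25.DL Pool.Agent.NH25.FR Pool.Agent.NH25.EL

variable {L : Type} [Field L] [NumberField L] {n m k : ℕ}

/-- one system for all functions of a variable -/
theorem famH (a : Fin 2 → L) (c : Fin n → L) (d : Fin m → L) (ha : ∀ j, a j ≠ 0) (hc : ∀ i, c i ≠ 0) :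
    ∃ (N : ℕ) (H : Matrix (Fin N) (Fin N) L⟦X⟧), LFam (0 : Matrix (Fin N) (Fin N) ℤ) H ∧
      (∀ i j, ∃ x y, H x y = J a i j) ∧ (∀ i j, ∃ x y, H x y = ww a (c i) j) ∧
      ∀ j, d j ≠ 0 → ∃ x y, H x y = lg (d j) := by
  classical
  obtain ⟨N, H, hH, hl⟩ := lfam_list ((⟨2, HZ a⟩ : Σ n : ℕ, Matrix (Fin n) (Fin n) L⟦X⟧) ::
    (((List.finRange n).map fun i => (⟨3, HP a (c i)⟩ : Σ n : ℕ, Matrix (Fin n) (Fin n) L⟦X⟧)) ++
    (((List.finRange m).filter fun j => d j ≠ 0).map fun j => (⟨2, HL (d j)⟩ : Σ n : ℕ, Matrix (Fin n) (Fin n) L⟦X⟧))))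
    (by
      intro x hx
      rcases List.mem_cons.1 hx with rfl | hx
      · exact lfamZ a ha
      · rcases List.mem_append.1 hx with hx | hx
        · obtain ⟨i, -, rfl⟩ := List.mem_map.1 hx
          exact lfamP a (c i) ha (hc i)
        · obtain ⟨j, hj, rfl⟩ := List.mem_map.1 hx
          rw [List.mem_filter] at hj
          exact lfamL (d j) (by simpa using hj.2))
  refine ⟨N, H, hH, fun i j => ?_, fun i j => ?_, fun j hj => ?_⟩
  · exact hl ⟨2, HZ a⟩ (List.mem_cons.2 (Or.inl rfl)) i j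
  · have h1 := hl ⟨3, HP a (c i)⟩ (List.mem_cons.2 (Or.inr (List.mem_append.2 (Or.inl (List.mem_map.2 ⟨i, List.mem_finRange i, rfl⟩)))))
    fin_cases j
    · exact h1 2 0
    · exact h1 2 1
  · have h1 := hl ⟨2, HL (d j)⟩ (List.mem_cons.2 (Or.inr (List.mem_append.2 (Or.inr (List.mem_map.2 ⟨j, List.mem_filter.2
      ⟨List.mem_finRange j, by simpa using hj⟩, rfl⟩)))))
    exact h1 0 1

/-- a sum of elementary matrices -/
noncomputable def cm {N r : ℕ} (x y : Fin r → Fin N) (co : Fin r → ℂ) : Matrix (Fin N) (Fin N) ℂ :=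
  ∑ i, Matrix.single (x i) (y i) (co i)

lemma sum_cm {N r : ℕ} (x y : Fin r → Fin N) (co : Fin r → ℂ) (V : Fin N → Fin N → ℂ) :
    ∑ a, ∑ a', cm x y co a a' * V a a' = ∑ i, co i * V (x i) (y i) := by
  have h1 : ∀ a a', cm x y co a a' * V a a' = ∑ i, (Matrix.single (x i) (y i) (co i) : Matrix (Fin N) (Fin N) ℂ) a a' * V a a' := by
    intro a a'
    unfold cm
    rw [Matrix.sum_apply, Finset.sum_mul]
  simp only [h1]
  have h2 : ∀ a, ∑ a', ∑ i, (Matrix.single (x i) (y i) (co i) : Matrix (Fin N) (Fin N) ℂ) a a' * V a a' =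
      ∑ i, ∑ a', (Matrix.single (x i) (y i) (co i) : Matrix (Fin N) (Fin N) ℂ) a a' * V a a' :=
    fun a => Finset.sum_comm
  simp only [h2]
  rw [Finset.sum_comm]
  exact Finset.sum_congr rfl fun i _ => sum_single _ _ _ _

variable [Algebra L ℂ] {κ₀ : Type}

/-- **The representation.** -/
theorem repG (a : Fin k → Fin 2 → L) (c : Fin k → Fin n → L) (d : Fin k → Fin m → L) (ha : ∀ l j, a l j ≠ 0)
    (hc : ∀ l i, c l i ≠ 0)
    (κ : Fin k → Fin 2 → Fin 2 → ℂ) (κ' : Fin k → Fin n → Fin 2 → ℂ) (ρ' : Fin k → Fin n → ℂ) (l₀ : Fin k) (cw : κ₀ → ℂ) (ρ : ℝ) :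
    ∃ (N : Fin k → ℕ) (H : ∀ l, Matrix (Fin (N l)) (Fin (N l)) L⟦X⟧), (∀ l, LFam (0 : Matrix (Fin (N l)) (Fin (N l)) ℤ) (H l)) ∧
      Nonempty (RepL (Pc cw (fG a c d κ κ' ρ')) ρ H) := by
  classical
  choose N H hH hF hW hlg using fun l => famH (a l) (c l) (d l) (ha l) (hc l)
  choose x y hxy using hF
  choose xw yw hxyw using hW
  choose x' y' hxy' using hlg
  refine ⟨N, H, hH, ⟨⟨1, Sum.elim (fun _ => l₀) Prod.fst,
    Sum.elim (fun o j => if j = 0 then cw o else 0) (fun v => Sum.elim (fun _ _ => 0) (Sum.elim (fun _ _ => 0)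
      (fun i j => if d v.1 i = 0 then (if j = 0 then 0 else -1) else 0)) v.2),
    fun i => match i with
      | Sum.inl _ => fun _ => 0
      | Sum.inr (l, Sum.inl e) => fun j => if j = 0 then
          cm ![x l 0 0, x l 0 1, x l 1 0, x l 1 1] ![y l 0 0, y l 0 1, y l 1 0, y l 1 1]
            ![κ l e 0, -κ l e 0, κ l e 1, -κ l e 1] else 0
      | Sum.inr (l, Sum.inr (Sum.inl e)) => fun j => if j = 0 then
          cm ![x l 0 0, x l 0 1, x l 1 0, x l 1 1, xw l e 0, xw l e 1] ![y l 0 0, y l 0 1, y l 1 0, y l 1 1, yw l e 0, yw l e 1]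
            ![κ' l e 0, -κ' l e 0, κ' l e 1, -κ' l e 1, ρ' l e, -ρ' l e] else 0
      | Sum.inr (l, Sum.inr (Sum.inr i)) => fun j => if h : d l i = 0 then 0 else
          (if j = 0 then Matrix.single (x' l i h) (y' l i h) 1 else 0), fun z hz t i => ?_⟩⟩⟩
  rcases i with o | ⟨l, e | e | i⟩
  · simp [Pc, Fin.sum_univ_two]
  · have key : fG a c d κ κ' ρ' z t (l, Sum.inl e) = ∑ j : Fin (1 + 1), ((0 : ℂ) + ∑ x1, ∑ x2,
        (if j = 0 then cm ![x l 0 0, x l 0 1, x l 1 0, x l 1 1] ![y l 0 0, y l 0 1, y l 1 0, y l 1 1]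
            ![κ l e 0, -κ l e 0, κ l e 1, -κ l e 1] else 0 :
          Matrix (Fin (N l)) (Fin (N l)) ℂ) x1 x2 * VL (H l x1 x2) (z l)) * t l ^ (j : ℕ) := by
      rw [Fin.sum_univ_two, if_pos rfl, if_neg (by decide), sum_cm, Fin.sum_univ_four]
      simp only [Matrix.cons_val_zero, Matrix.cons_val_one, Matrix.cons_val, hxy]
      simp only [Matrix.zero_apply, zero_mul, Finset.sum_const_zero, add_zero, zero_add, Fin.isValue, Fin.val_zero,
        pow_zero, mul_one, fG, g1, Sum.elim_inl]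
      ring
    exact key
  · have key : fG a c d κ κ' ρ' z t (l, Sum.inr (Sum.inl e)) = ∑ j : Fin (1 + 1), ((0 : ℂ) + ∑ x1, ∑ x2,
        (if j = 0 then cm ![x l 0 0, x l 0 1, x l 1 0, x l 1 1, xw l e 0, xw l e 1]
            ![y l 0 0, y l 0 1, y l 1 0, y l 1 1, yw l e 0, yw l e 1]
            ![κ' l e 0, -κ' l e 0, κ' l e 1, -κ' l e 1, ρ' l e, -ρ' l e] else 0 :
          Matrix (Fin (N l)) (Fin (N l)) ℂ) x1 x2 * VL (H l x1 x2) (z l)) * t l ^ (j : ℕ) := by
      rw [Fin.sum_univ_two, if_pos rfl, if_neg (by decide), sum_cm, Fin.sum_univ_six]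
      simp only [Matrix.cons_val_zero, Matrix.cons_val_one, Matrix.cons_val, hxy, hxyw]
      simp only [Matrix.zero_apply, zero_mul, Finset.sum_const_zero, add_zero, zero_add, Fin.isValue, Fin.val_zero,
        pow_zero, mul_one, fG, g1, Sum.elim_inr, Sum.elim_inl]
      ring
    exact key
  · by_cases h : d l i = 0
    · have key : fG a c d κ κ' ρ' z t (l, Sum.inr (Sum.inr i)) = ∑ j : Fin (1 + 1), ((if j = 0 then 0 else -1 : ℂ) + ∑ x1, ∑ x2,
          (0 : Matrix (Fin (N l)) (Fin (N l)) ℂ) x1 x2 * VL (H l x1 x2) (z l)) * t l ^ (j : ℕ) := by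
        rw [Fin.sum_univ_two, if_pos rfl, if_neg (by decide)]
        simp only [Matrix.zero_apply, zero_mul, Finset.sum_const_zero, add_zero, zero_add, Fin.isValue, Fin.val_one,
          pow_one, fG, g1, Sum.elim_inr, h, if_true]
        ring
      refine key.trans (Finset.sum_congr rfl fun j _ => ?_)
      simp only [Sum.elim_inr, h, dif_pos, if_true]
      rfl
    · have key : fG a c d κ κ' ρ' z t (l, Sum.inr (Sum.inr i)) = ∑ j : Fin (1 + 1), ((0 : ℂ) + ∑ x1, ∑ x2,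
          (if j = 0 then Matrix.single (x' l i h) (y' l i h) 1 else 0 :
            Matrix (Fin (N l)) (Fin (N l)) ℂ) x1 x2 * VL (H l x1 x2) (z l)) * t l ^ (j : ℕ) := by
        rw [Fin.sum_univ_two, if_pos rfl, if_neg (by decide), sum_single, hxy']
        simp only [Matrix.zero_apply, zero_mul, Finset.sum_const_zero, add_zero, zero_add, Fin.isValue, Fin.val_zero,
          pow_zero, mul_one, fG, g1, Sum.elim_inr, h, if_false, one_mul]
      refine key.trans (Finset.sum_congr rfl fun j _ => ?_)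
      simp only [Sum.elim_inr, h, dif_neg, if_false, not_false_eq_true]
      rfl

end Pool.Agent.NH25.LG
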