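import Pool.Agent.NH25.LG.Fam
import Pool.Agent.NH25.LG.Der
import Pool.Agent.NH25.EL.Val

/-!
# Values of the solutions near the centre
-/

set_option autoImplicit false

open PowerSeries Filter Topology

namespace Pool.Agent.NH25.LG

open Pool.Agent.Y921.DB Pool.Agent.NH25.DL Pool.Agent.NH25.EL

section uniq

/-- uniqueness of solutions -/
theorem uniq {D0 D1 A B : ℂ → ℂ} (hA : ContinuousAt A 0) (hB : ContinuousAt B 0)
    (h0 : ∀ᶠ z : ℂ in 𝓝 0, HasDerivAt D0 (A z * D1 z) z) (h1 : ∀ᶠ z : ℂ in 𝓝 0, HasDerivAt D1 (B z * D0 z) z)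
    (hz0 : D0 0 = 0) (hz1 : D1 0 = 0) : ∀ᶠ z : ℂ in 𝓝 0, D0 z = 0 ∧ D1 z = 0 := by
  have hA' : ∀ᶠ z : ℂ in 𝓝 0, ‖A z‖ < ‖A 0‖ + 1 := by
    have := hA.norm.eventually_lt continuousAt_const (show ‖A 0‖ < ‖A 0‖ + 1 by linarith)
    exact this
  have hB' : ∀ᶠ z : ℂ in 𝓝 0, ‖B z‖ < ‖B 0‖ + 1 := by
    have := hB.norm.eventually_lt continuousAt_const (show ‖B 0‖ < ‖B 0‖ + 1 by linarith)
    exact this
  obtain ⟨r, hr, hball⟩ := Metric.eventually_nhds_iff_ball.1 ((h0.and h1).and (hA'.and hB'))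
  set K : ℝ := ‖A 0‖ + ‖B 0‖ + 1 with hK
  have hK0 : 0 ≤ K := by positivity
  filter_upwards [Metric.ball_mem_nhds (0 : ℂ) hr] with z hz
  have hseg : ∀ t : ℝ, t ∈ Set.Icc (0 : ℝ) 1 → (t : ℂ) * z ∈ Metric.ball (0 : ℂ) r := by
    intro t ht
    rw [Metric.mem_ball, dist_zero_right] at hz ⊢
    rw [norm_mul, Complex.norm_real, Real.norm_eq_abs, abs_of_nonneg ht.1]
    calc t * ‖z‖ ≤ 1 * ‖z‖ := mul_le_mul_of_nonneg_right ht.2 (norm_nonneg _)
      _ < r := by rwa [one_mul]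
  set f : ℝ → ℂ × ℂ := fun t => (D0 (t * z), D1 (t * z)) with hf
  set f' : ℝ → ℂ × ℂ := fun t => (A (t * z) * D1 (t * z) * z, B (t * z) * D0 (t * z) * z) with hf'
  have hd : ∀ t ∈ Set.Icc (0 : ℝ) 1, HasDerivAt f (f' t) t := by
    intro t ht
    obtain ⟨⟨e1, e2⟩, -⟩ := hball _ (hseg t ht)
    have h3 : HasDerivAt (fun t : ℝ => (t : ℂ) * z) z t := by
      have := (Complex.ofRealCLM.hasDerivAt (x := t)).mul_const z
      simpa using this
    have h4 : HasDerivAt (fun t : ℝ => D0 (t * z)) (A (t * z) * D1 (t * z) * z) t := e1.comp t h3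
    have h5 : HasDerivAt (fun t : ℝ => D1 (t * z)) (B (t * z) * D0 (t * z) * z) t := e2.comp t h3
    exact h4.prodMk h5
  have hgr := norm_le_gronwallBound_of_norm_deriv_right_le (f := f) (f' := f') (δ := 0) (K := K * ‖z‖) (ε := 0) (a := 0) (b := 1)
    (fun t ht => (hd t ht).continuousAt.continuousWithinAt)
    (fun t ht => (hd t ⟨ht.1, ht.2.le⟩).hasDerivWithinAt) (by simp [hf, hz0, hz1]) (fun t ht => by
      obtain ⟨-, e3, e4⟩ := hball _ (hseg t ⟨ht.1, ht.2.le⟩)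
      rw [add_zero]
      have hfx : ‖D0 (t * z)‖ ≤ ‖f t‖ := norm_fst_le (f t)
      have hfy : ‖D1 (t * z)‖ ≤ ‖f t‖ := norm_snd_le (f t)
      have n1 : ‖A (t * z) * D1 (t * z) * z‖ ≤ K * ‖z‖ * ‖f t‖ := by
        rw [norm_mul, norm_mul]
        calc _ ≤ K * ‖f t‖ * ‖z‖ := by
              refine mul_le_mul_of_nonneg_right (mul_le_mul ?_ hfy (norm_nonneg _) hK0) (norm_nonneg _)
              have := norm_nonneg (B 0)
              rw [hK]
              linarith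
          _ = _ := by ring
      have n2 : ‖B (t * z) * D0 (t * z) * z‖ ≤ K * ‖z‖ * ‖f t‖ := by
        rw [norm_mul, norm_mul]
        calc _ ≤ K * ‖f t‖ * ‖z‖ := by
              refine mul_le_mul_of_nonneg_right (mul_le_mul ?_ hfx (norm_nonneg _) hK0) (norm_nonneg _)
              have := norm_nonneg (A 0)
              rw [hK]
              linarith
          _ = _ := by ring
      exact max_le n1 n2) 1 ⟨zero_le_one, le_rfl⟩
  rw [gronwallBound_ε0_δ0] at hgr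
  have h6 : f 1 = 0 := norm_le_zero_iff.1 hgr
  have h7 := congrArg Prod.fst h6
  have h8 := congrArg Prod.snd h6
  simp only [hf, Complex.ofReal_one, one_mul, Prod.fst_zero, Prod.snd_zero] at h7 h8
  exact ⟨h7, h8⟩

end uniq

variable {L : Type} [Field L] [NumberField L] [Algebra L ℂ] (a : Fin 2 → L) (c : L)

lemma vl_hf {x : L} (hx : x ≠ 0) : ∀ᶠ z : ℂ in 𝓝 0, z - algebraMap L ℂ x ≠ 0 ∧ VL (hf x) z = 1 / (2 * (z - algebraMap L ℂ x)) := by
  have hx' : algebraMap L ℂ x ≠ 0 := (map_ne_zero_iff _ (algebraMap L ℂ).injective).2 hx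
  have h1 : hf x * (C 2 * (X + C (-x))) = (1 : L⟦X⟧) := by
    have h2 := hf_mul hx
    have h3 : (C 2 : L⟦X⟧) = 2 := by rw [map_ofNat]
    rw [h3, map_neg]
    linear_combination h2
  have hne : ∀ᶠ z : ℂ in 𝓝 0, z - algebraMap L ℂ x ≠ 0 := by
    have h2 : Continuous fun z : ℂ => z - algebraMap L ℂ x := by fun_prop
    exact h2.continuousAt.eventually_ne (by simpa using hx')
  have hG1 : GFn (hf x) := (GFn.const _).mul (GFn_ge _)
  have hG2 : GFn (X + C (-x) : L⟦X⟧) := GFn.X.add (GFn.const _)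
  filter_upwards [hne, vl_mul hG1 ((GFn.const (2 : L)).mul hG2), vl_mul (GFn.const (2 : L)) hG2,
    vl_add GFn.X (GFn.const (-x))] with z h2 h3 h4 h5
  refine ⟨h2, ?_⟩
  rw [h1, h4, h5, vl_C, vl_X, vl_C] at h3
  have h9 := vl_C (1 : L) z
  rw [map_one, map_one] at h9
  rw [h9, map_ofNat, map_neg] at h3
  rw [eq_div_iff (mul_ne_zero two_ne_zero h2)]
  linear_combination -h3

/-- derivatives from formal equations -/
lemma dv {x : L} (hx : x ≠ 0) {f g : L⟦X⟧} (hf' : GFn f) (hg : GFn g) (h : 2 * ((X - C x) * d⁄dX L g) = f) :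
    ∀ᶠ z : ℂ in 𝓝 0, HasDerivAt (VL g) (VL f z / (2 * (z - algebraMap L ℂ x))) z := by
  have h1 : d⁄dX L g = f * hf x := by
    have h2 := hf_mul hx
    linear_combination (hf x) * h - (d⁄dX L g) * h2
  filter_upwards [vl_der hg, vl_hf hx, vl_mul hf' ((GFn.const _).mul (GFn_ge x))] with z h2 h3 h4
  have h5 : VL (f * hf x) z = VL f z * VL (hf x) z := h4
  rw [h1, h5, h3.2] at h2
  refine h2.congr_deriv ?_
  rw [mul_one_div]

lemma J_dv0 (ha : ∀ j, a j ≠ 0) (k : Fin 2) : ∀ᶠ z : ℂ in 𝓝 0,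
    HasDerivAt (VL (J a k 0)) (VL (J a k 1) z / (2 * (z - algebraMap L ℂ (a 1)))) z :=
  dv (ha 1) (GFn_J a k 1) (GFn_J a k 0) (J_der0 a ha k)

lemma J_dv1 (ha : ∀ j, a j ≠ 0) (k : Fin 2) : ∀ᶠ z : ℂ in 𝓝 0,
    HasDerivAt (VL (J a k 1)) (VL (J a k 0) z / (2 * (z - algebraMap L ℂ (a 0)))) z :=
  dv (ha 0) (GFn_J a k 0) (GFn_J a k 1) (J_der1 a ha k)

lemma GFn_rr : GFn (rr c) := GFn_Bn _ _

lemma ww_dv0 (ha : ∀ j, a j ≠ 0) : ∀ᶠ z : ℂ in 𝓝 0,
    HasDerivAt (VL (ww a c 0)) ((VL (ww a c 1) z + VL (rr c) z) / (2 * (z - algebraMap L ℂ (a 1)))) z := by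
  filter_upwards [dv (ha 1) ((GFn_ww a c 1).add (GFn_rr c)) (GFn_ww a c 0) (ww_der0 a c ha),
    vl_add (GFn_ww a c 1) (GFn_rr c)] with z h1 h2
  rwa [h2] at h1

lemma ww_dv1 (ha : ∀ j, a j ≠ 0) : ∀ᶠ z : ℂ in 𝓝 0,
    HasDerivAt (VL (ww a c 1)) ((VL (ww a c 0) z + VL (rr c) z) / (2 * (z - algebraMap L ℂ (a 0)))) z := by
  filter_upwards [dv (ha 0) ((GFn_ww a c 0).add (GFn_rr c)) (GFn_ww a c 1) (ww_der1 a c ha),
    vl_add (GFn_ww a c 0) (GFn_rr c)] with z h1 h2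
  rwa [h2] at h1

lemma rr_dv (hc : c ≠ 0) : ∀ᶠ z : ℂ in 𝓝 0,
    HasDerivAt (VL (rr c)) (VL (rr c) z / (2 * (algebraMap L ℂ c - z))) z := by
  have h1 : 2 * ((X - C c) * d⁄dX L (rr c)) = C (-1) * rr c := by
    rw [rr_der c hc, map_neg, map_one]
    ring
  filter_upwards [dv hc ((GFn.const (-1 : L)).mul (GFn_rr c)) (GFn_rr c) h1, vl_mul (GFn.const (-1 : L)) (GFn_rr c),
    vl_hf hc] with z h2 h3 h4
  rw [h3, vl_C] at h2
  refine h2.congr_deriv ?_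
  have h5 := h4.1
  have h6 : algebraMap L ℂ c - z ≠ 0 := fun h => h5 (by linear_combination -h)
  rw [map_neg, map_one]
  field_simp
  ring

lemma J_val (ha : ∀ j, a j ≠ 0) (k j : Fin 2) : VL (J a k j) 0 = if k = j then 1 else 0 := by
  rw [vl_zero, J_zero a ha]
  split_ifs <;> simp

lemma ww_val (j : Fin 2) : VL (ww a c j) 0 = 0 := by
  rw [vl_zero, ww_zero, map_zero]

lemma rr_val : VL (rr c) 0 = 1 := by
  rw [vl_zero]
  unfold rr
  rw [coeff_zero_eq_constantCoeff_apply, Bn_coeff_zero, map_one]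

/-- **Representation of the solutions.** -/
theorem rep_sol (ha : ∀ j, a j ≠ 0) {K0 K1 R : ℂ → ℂ} {ρ : ℂ} (hR : ∀ᶠ z : ℂ in 𝓝 0, R z = ρ * VL (rr c) z)
    (h0 : ∀ᶠ z : ℂ in 𝓝 0, HasDerivAt K0 ((K1 z + R z) / (2 * (z - algebraMap L ℂ (a 1)))) z)
    (h1 : ∀ᶠ z : ℂ in 𝓝 0, HasDerivAt K1 ((K0 z + R z) / (2 * (z - algebraMap L ℂ (a 0)))) z) :
    ∀ᶠ z : ℂ in 𝓝 0, K0 z = K0 0 * VL (J a 0 0) z + K1 0 * VL (J a 1 0) z + ρ * VL (ww a c 0) z ∧
      K1 z = K0 0 * VL (J a 0 1) z + K1 0 * VL (J a 1 1) z + ρ * VL (ww a c 1) z := by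
  have hx : ∀ j, algebraMap L ℂ (a j) ≠ 0 := fun j => (map_ne_zero_iff _ (algebraMap L ℂ).injective).2 (ha j)
  have hcont : ∀ j, ContinuousAt (fun z : ℂ => 1 / (2 * (z - algebraMap L ℂ (a j)))) 0 := by
    intro j
    refine ContinuousAt.div continuousAt_const (by fun_prop) ?_
    simpa using hx j
  have key := uniq (D0 := fun z => K0 z - (K0 0 * VL (J a 0 0) z + K1 0 * VL (J a 1 0) z + ρ * VL (ww a c 0) z))
    (D1 := fun z => K1 z - (K0 0 * VL (J a 0 1) z + K1 0 * VL (J a 1 1) z + ρ * VL (ww a c 1) z)) (hcont 1) (hcont 0)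
    (by
      filter_upwards [h0, hR, J_dv0 a ha 0, J_dv0 a ha 1, ww_dv0 a c ha] with z e1 e2 e3 e4 e5
      refine (e1.sub (((e3.const_mul (K0 0)).add (e4.const_mul (K1 0))).add (e5.const_mul ρ))).congr_deriv ?_
      rw [e2]
      ring)
    (by
      filter_upwards [h1, hR, J_dv1 a ha 0, J_dv1 a ha 1, ww_dv1 a c ha] with z e1 e2 e3 e4 e5
      refine (e1.sub (((e3.const_mul (K0 0)).add (e4.const_mul (K1 0))).add (e5.const_mul ρ))).congr_deriv ?_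
      rw [e2]
      ring)
    (by simp [J_val a ha, ww_val]) (by simp [J_val a ha, ww_val])
  filter_upwards [key] with z hz
  exact ⟨sub_eq_zero.1 hz.1, sub_eq_zero.1 hz.2⟩

/-- the algebraic function -/
theorem rep_R (hc : c ≠ 0) {R : ℂ → ℂ} (h : ∀ᶠ z : ℂ in 𝓝 0, HasDerivAt R (R z / (2 * (algebraMap L ℂ c - z))) z) :
    ∀ᶠ z : ℂ in 𝓝 0, R z = R 0 * VL (rr c) z := by
  have hx : algebraMap L ℂ c ≠ 0 := (map_ne_zero_iff _ (algebraMap L ℂ).injective).2 hc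
  have hcont : ContinuousAt (fun z : ℂ => 1 / (2 * (algebraMap L ℂ c - z))) 0 := by
    refine ContinuousAt.div continuousAt_const (by fun_prop) ?_
    simpa using hx
  have h1 : ∀ᶠ z : ℂ in 𝓝 0, HasDerivAt (fun z => R z - R 0 * VL (rr c) z)
      (1 / (2 * (algebraMap L ℂ c - z)) * (R z - R 0 * VL (rr c) z)) z := by
    filter_upwards [h, rr_dv c hc] with z e1 e2
    refine (e1.sub (e2.const_mul (R 0))).congr_deriv ?_
    ring
  have key := uniq hcont hcont h1 h1 (by simp [rr_val]) (by simp [rr_val])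
  filter_upwards [key] with z hz
  exact sub_eq_zero.1 hz.1

end Pool.Agent.NH25.LG
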